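import Mathlib

set_option autoImplicit false

/-!
Basic facts on the linear recurrence `u_{n+2} = t u_{n+1} - u_n` attached to the unit
`ε` with `ε^2 - t ε + 1 = 0`, `ε > 1`, and on two-sided expansions in powers of `ε⁻¹`.
-/

namespace Pool.H389R2.LC

/-- `u_0 = 0, u_1 = 1, u_{n+2} = t u_{n+1} - u_n`. -/
def U (t : ℤ) : ℕ → ℤ
  | 0 => 0
  | 1 => 1
  | (n + 2) => t * U t (n + 1) - U t n

/-- standing assumptions on the unit -/
structure Base (t : ℤ) (ε : ℝ) : Prop where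
  ht : 3 ≤ t
  h1 : 1 < ε
  hq : ε ^ 2 - t * ε + 1 = 0

theorem U_zero (t : ℤ) : U t 0 = 0 := rfl
theorem U_one (t : ℤ) : U t 1 = 1 := rfl
theorem U_succ2 (t : ℤ) (n : ℕ) : U t (n + 2) = t * U t (n + 1) - U t n := rfl

section base
variable {t : ℤ} {ε : ℝ} (hb : Base t ε)
include hb

theorem Base.pos : 0 < ε := lt_trans one_pos hb.h1

theorem Base.ne : ε ≠ 0 := hb.pos.ne'

theorem Base.rpos : 0 < ε⁻¹ := inv_pos.mpr hb.pos

theorem Base.rlt : ε⁻¹ < 1 := inv_lt_one_of_one_lt₀ hb.h1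

theorem Base.mul : ε * ε⁻¹ = 1 := mul_inv_cancel₀ hb.ne

theorem Base.add : ε + ε⁻¹ = t := by
  have h := hb.hq
  have h2 := hb.mul
  have : ε⁻¹ * (ε ^ 2 - t * ε + 1) = 0 := by rw [h, mul_zero]
  have h3 : ε⁻¹ * (ε ^ 2 - t * ε + 1) = (ε * ε⁻¹) * ε - t * (ε * ε⁻¹) + ε⁻¹ := by ring
  rw [h3, h2] at this
  linarith

theorem Base.two_lt : 2 < ε := by
  have h1 := hb.add
  have h2 := hb.rlt
  have h3 : (3 : ℝ) ≤ t := by exact_mod_cast hb.ht
  linarith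

theorem Base.δpos : 1 < ε - ε⁻¹ := by
  have h1 := hb.two_lt
  have h2 := hb.rlt
  linarith

theorem Base.δne : ε - ε⁻¹ ≠ 0 := by
  have := hb.δpos
  linarith

theorem Base.binet (n : ℕ) : (ε - ε⁻¹) * (U t n : ℝ) = ε ^ n - ε⁻¹ ^ n := by
  induction n using Nat.twoStepInduction with
  | zero => simp [U_zero]
  | one => simp [U_one]
  | more n ih1 ih2 =>
    rw [U_succ2]
    push_cast
    have h1 := hb.add
    have h2 := hb.mul
    have : (ε - ε⁻¹) * ((t : ℝ) * (U t (n + 1) : ℝ) - (U t n : ℝ))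
        = t * ((ε - ε⁻¹) * (U t (n + 1) : ℝ)) - (ε - ε⁻¹) * (U t n : ℝ) := by ring
    rw [this, ih1, ih2, ← h1]
    have e1 : ε⁻¹ * ε ^ (n + 1) = ε ^ n := by
      rw [pow_succ]; calc ε⁻¹ * (ε ^ n * ε) = (ε * ε⁻¹) * ε ^ n := by ring
        _ = ε ^ n := by rw [h2, one_mul]
    have e2 : ε * ε⁻¹ ^ (n + 1) = ε⁻¹ ^ n := by
      rw [pow_succ]; calc ε * (ε⁻¹ ^ n * ε⁻¹) = (ε * ε⁻¹) * ε⁻¹ ^ n := by ring
        _ = ε⁻¹ ^ n := by rw [h2, one_mul]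
    calc (ε + ε⁻¹) * (ε ^ (n + 1) - ε⁻¹ ^ (n + 1)) - (ε ^ n - ε⁻¹ ^ n)
        = ε ^ (n + 2) - ε⁻¹ ^ (n + 2) + (ε⁻¹ * ε ^ (n + 1) - ε ^ n)
          - (ε * ε⁻¹ ^ (n + 1) - ε⁻¹ ^ n) := by ring
      _ = ε ^ (n + 2) - ε⁻¹ ^ (n + 2) := by rw [e1, e2]; ring

/-- `u_{n+1} - ε u_n = ε^{-n}`. -/
theorem Base.U_diff (n : ℕ) : (U t (n + 1) : ℝ) - ε * (U t n : ℝ) = ε⁻¹ ^ n := by
  have h1 := hb.binet n
  have h2 := hb.binet (n + 1)
  have h3 := hb.mul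
  have : (ε - ε⁻¹) * ((U t (n + 1) : ℝ) - ε * (U t n : ℝ)) = (ε - ε⁻¹) * ε⁻¹ ^ n := by
    calc (ε - ε⁻¹) * ((U t (n + 1) : ℝ) - ε * (U t n : ℝ))
        = (ε - ε⁻¹) * (U t (n + 1) : ℝ) - ε * ((ε - ε⁻¹) * (U t n : ℝ)) := by ring
      _ = (ε ^ (n + 1) - ε⁻¹ ^ (n + 1)) - ε * (ε ^ n - ε⁻¹ ^ n) := by rw [h1, h2]
      _ = (ε - ε⁻¹) * ε⁻¹ ^ n := by ring
  exact mul_left_cancel₀ hb.δne this

theorem Base.U_lower (n : ℕ) : ε ^ n ≤ (U t (n + 1) : ℝ) := by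
  induction n with
  | zero => simp [U_one]
  | succ n ih =>
    have h := hb.U_diff (n + 1)
    have h2 : 0 < ε⁻¹ ^ (n + 1) := pow_pos hb.rpos _
    have h3 : ε * ε ^ n ≤ ε * (U t (n + 1) : ℝ) := mul_le_mul_of_nonneg_left ih hb.pos.le
    calc ε ^ (n + 1) = ε * ε ^ n := by ring
      _ ≤ ε * (U t (n + 1) : ℝ) := h3
      _ ≤ (U t (n + 1 + 1) : ℝ) := by linarith

theorem Base.U_nonneg (n : ℕ) : 0 ≤ U t n := by
  cases n with
  | zero => simp [U_zero]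
  | succ n =>
    have h := hb.U_lower n
    have h2 : 0 < ε ^ n := pow_pos hb.pos _
    have : (0 : ℝ) ≤ (U t (n + 1) : ℝ) := by linarith
    exact_mod_cast this

theorem Base.U_upper (n : ℕ) : (U t n : ℝ) ≤ ε ^ n := by
  have h := hb.binet n
  have h2 : 0 < ε⁻¹ ^ n := pow_pos hb.rpos _
  have h3 : (0 : ℝ) ≤ (U t n : ℝ) := by exact_mod_cast hb.U_nonneg n
  have h4 := hb.δpos
  nlinarith

end base

/-- the quadratic invariant -/
theorem U_inv (t : ℤ) (n : ℕ) :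
    U t (n + 1) ^ 2 - t * U t n * U t (n + 1) + U t n ^ 2 = 1 := by
  induction n with
  | zero => simp [U_zero, U_one]
  | succ n ih =>
    rw [U_succ2]
    linear_combination ih

theorem U_coprime (t : ℤ) (n : ℕ) : IsCoprime (U t n) (U t (n + 1)) := by
  refine ⟨U t n - t * U t (n + 1), U t (n + 1), ?_⟩
  linear_combination U_inv t n

/-- doubling formulas -/
theorem U_double (t : ℤ) (h : ℕ) :
    U t (2 * h) = U t h * (2 * U t (h + 1) - t * U t h) ∧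
    U t (2 * h + 1) = U t (h + 1) ^ 2 - U t h ^ 2 := by
  induction h with
  | zero => simp [U_zero, U_one]
  | succ h ih =>
    obtain ⟨h1, h2⟩ := ih
    have e1 : U t (2 * (h + 1)) = t * U t (2 * h + 1) - U t (2 * h) := by
      rw [show 2 * (h + 1) = 2 * h + 2 from by ring, U_succ2]
    have e2 : U t (2 * (h + 1) + 1) = t * U t (2 * (h + 1)) - U t (2 * h + 1) := by
      rw [show 2 * (h + 1) + 1 = (2 * h + 1) + 2 from by ring, U_succ2,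
        show 2 * (h + 1) = 2 * h + 1 + 1 from by ring]
    have e3 : U t (h + 1 + 1) = t * U t (h + 1) - U t h := U_succ2 t h
    constructor
    · rw [e1, h1, h2, e3]
      ring
    · rw [e2, e1, h1, h2, e3]
      ring

end Pool.H389R2.LC
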