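import Mathlib
import Pool.Agent.H389R2.LC.Basic

set_option autoImplicit false

/-!
Two-sided expansions: `gg ε f j = (∑_{i ∈ ℤ} f (j+i) ε^{-|i|}) / (ε - ε⁻¹)`.
-/

namespace Pool.H389R2.LC

/-- the future part -/
noncomputable def FF (ε : ℝ) (f : ℤ → ℤ) (j : ℤ) : ℝ :=
  ∑' i : ℕ, (f (j + i) : ℝ) * ε⁻¹ ^ i

/-- the past part -/
noncomputable def PP (ε : ℝ) (f : ℤ → ℤ) (j : ℤ) : ℝ :=
  ∑' i : ℕ, (f (j - 1 - i) : ℝ) * ε⁻¹ ^ (i + 1)

/-- the two-sided sum -/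
noncomputable def gg (ε : ℝ) (f : ℤ → ℤ) (j : ℤ) : ℝ :=
  (FF ε f j + PP ε f j) / (ε - ε⁻¹)

section base
variable {t : ℤ} {ε : ℝ} (hb : Base t ε)
include hb

theorem summable_geo (c : ℕ → ℤ) (B : ℝ) (hB : ∀ k, |(c k : ℝ)| ≤ B) :
    Summable (fun i : ℕ => (c i : ℝ) * ε⁻¹ ^ i) := by
  refine Summable.of_norm_bounded (g := fun i : ℕ => B * ε⁻¹ ^ i) ?_ ?_
  · exact (summable_geometric_of_lt_one hb.rpos.le hb.rlt).mul_left B
  · intro i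
    rw [Real.norm_eq_abs, abs_mul, abs_of_pos (pow_pos hb.rpos i)]
    exact mul_le_mul_of_nonneg_right (hB i) (pow_pos hb.rpos i).le

theorem summable_geo' (c : ℕ → ℤ) (B : ℝ) (hB : ∀ k, |(c k : ℝ)| ≤ B) :
    Summable (fun i : ℕ => (c i : ℝ) * ε⁻¹ ^ (i + 1)) := by
  have h := (summable_geo hb c B hB).mul_left (ε⁻¹)
  refine h.congr (fun i => ?_)
  rw [pow_succ]; ring

/-- if the first `ρ` coefficients vanish, the sum is small -/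
theorem tsum_small (c : ℕ → ℤ) (B : ℝ) (hB : ∀ k, |(c k : ℝ)| ≤ B) (ρ : ℕ)
    (h0 : ∀ k, k < ρ → c k = 0) :
    |∑' i : ℕ, (c i : ℝ) * ε⁻¹ ^ i| ≤ B * ε⁻¹ ^ ρ * (1 - ε⁻¹)⁻¹ := by
  have hs := summable_geo hb c B hB
  rw [← hs.sum_add_tsum_nat_add ρ]
  have hz : ∑ i ∈ Finset.range ρ, (c i : ℝ) * ε⁻¹ ^ i = 0 := by
    apply Finset.sum_eq_zero
    intro i hi
    rw [h0 i (Finset.mem_range.mp hi)]
    simp
  rw [hz, zero_add, ← Real.norm_eq_abs]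
  have hg : HasSum (fun i : ℕ => B * ε⁻¹ ^ ρ * ε⁻¹ ^ i) (B * ε⁻¹ ^ ρ * (1 - ε⁻¹)⁻¹) :=
    (hasSum_geometric_of_lt_one hb.rpos.le hb.rlt).mul_left _
  refine tsum_of_norm_bounded hg ?_
  intro i
  rw [Real.norm_eq_abs, abs_mul, abs_of_pos (pow_pos hb.rpos _), pow_add]
  have h1 := hB (i + ρ)
  have h2 : 0 < ε⁻¹ ^ i * ε⁻¹ ^ ρ := mul_pos (pow_pos hb.rpos _) (pow_pos hb.rpos _)
  calc |(c (i + ρ) : ℝ)| * (ε⁻¹ ^ i * ε⁻¹ ^ ρ) ≤ B * (ε⁻¹ ^ i * ε⁻¹ ^ ρ) :=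
        mul_le_mul_of_nonneg_right h1 h2.le
    _ = B * ε⁻¹ ^ ρ * ε⁻¹ ^ i := by ring

theorem FF_rec (f : ℤ → ℤ) (B : ℝ) (hB : ∀ k, |(f k : ℝ)| ≤ B) (j : ℤ) :
    FF ε f j = f j + ε⁻¹ * FF ε f (j + 1) := by
  unfold FF
  rw [(summable_geo hb (fun i : ℕ => f (j + i)) B (fun k => hB _)).tsum_eq_zero_add]
  rw [← tsum_mul_left]
  congr 1
  · simp
  · apply tsum_congr
    intro i
    rw [show j + ((i + 1 : ℕ) : ℤ) = j + 1 + i by push_cast; ring, pow_succ]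
    ring

theorem PP_rec (f : ℤ → ℤ) (B : ℝ) (hB : ∀ k, |(f k : ℝ)| ≤ B) (j : ℤ) :
    PP ε f (j + 1) = ε⁻¹ * (f j + PP ε f j) := by
  unfold PP
  rw [(summable_geo' hb (fun i : ℕ => f (j + 1 - 1 - i)) B (fun k => hB _)).tsum_eq_zero_add]
  rw [mul_add, ← tsum_mul_left]
  congr 1
  · simp [mul_comm]
  · apply tsum_congr
    intro i
    rw [show j + 1 - 1 - ((i + 1 : ℕ) : ℤ) = j - 1 - i by push_cast; ring, pow_succ]
    ring

theorem gg_rec (f : ℤ → ℤ) (B : ℝ) (hB : ∀ k, |(f k : ℝ)| ≤ B) (j : ℤ) :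
    gg ε f (j + 2) = t * gg ε f (j + 1) - gg ε f j - f (j + 1) := by
  have F1 := FF_rec hb f B hB j
  have F2 := FF_rec hb f B hB (j + 1)
  have P1 := PP_rec hb f B hB j
  have P2 := PP_rec hb f B hB (j + 1)
  have e1 : j + 1 + 1 = j + 2 := by ring
  rw [e1] at F2 P2
  have hm := hb.mul
  have ha := hb.add
  have hd := hb.δne
  -- F(j+2) = ε (F(j+1) - f(j+1))
  have F2' : FF ε f (j + 2) = ε * (FF ε f (j + 1) - f (j + 1)) := by
    rw [F2]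
    calc FF ε f (j + 2) = (ε * ε⁻¹) * FF ε f (j + 2) := by rw [hm, one_mul]
      _ = _ := by ring
  have P1' : PP ε f j = ε * PP ε f (j + 1) - f j := by
    rw [P1]
    calc PP ε f j = (ε * ε⁻¹) * (f j + PP ε f j) - f j := by rw [hm, one_mul]; ring
      _ = _ := by ring
  have key : FF ε f (j + 2) + PP ε f (j + 2)
      = t * (FF ε f (j + 1) + PP ε f (j + 1)) - (FF ε f j + PP ε f j)
        - f (j + 1) * (ε - ε⁻¹) := by
    rw [F2', P2, P1', F1, ← ha]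
    ring
  unfold gg
  rw [key, sub_div, sub_div, mul_div_assoc, mul_div_cancel_right₀ _ hd]

omit hb in
theorem gg_shift (f : ℤ → ℤ) (ℓ : ℤ) (σ : ℤ) (h : ∀ k, f (k + ℓ) = σ * f k) (j : ℤ) :
    gg ε f (j + ℓ) = σ * gg ε f j := by
  have h1 : FF ε f (j + ℓ) = σ * FF ε f j := by
    unfold FF
    rw [← tsum_mul_left]
    apply tsum_congr
    intro i
    rw [show j + ℓ + (i : ℤ) = j + i + ℓ by ring, h]
    push_cast; ring
  have h2 : PP ε f (j + ℓ) = σ * PP ε f j := by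
    unfold PP
    rw [← tsum_mul_left]
    apply tsum_congr
    intro i
    rw [show j + ℓ - 1 - (i : ℤ) = j - 1 - i + ℓ by ring, h]
    push_cast; ring
  unfold gg
  rw [h1, h2]
  ring

theorem gg_sub (f g : ℤ → ℤ) (B : ℝ) (hB : ∀ k, |(f k : ℝ)| ≤ B) (hB' : ∀ k, |(g k : ℝ)| ≤ B)
    (j : ℤ) : gg ε (fun k => f k - g k) j = gg ε f j - gg ε g j := by
  have h1 : FF ε (fun k => f k - g k) j = FF ε f j - FF ε g j := by
    unfold FF
    rw [← (summable_geo hb (fun i : ℕ => f (j + i)) B (fun k => hB _)).tsum_sub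
      (summable_geo hb (fun i : ℕ => g (j + i)) B (fun k => hB' _))]
    apply tsum_congr
    intro i
    push_cast; ring
  have h2 : PP ε (fun k => f k - g k) j = PP ε f j - PP ε g j := by
    unfold PP
    rw [← (summable_geo' hb (fun i : ℕ => f (j - 1 - i)) B (fun k => hB _)).tsum_sub
      (summable_geo' hb (fun i : ℕ => g (j - 1 - i)) B (fun k => hB' _))]
    apply tsum_congr
    intro i
    push_cast; ring
  unfold gg
  rw [h1, h2]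
  ring

/-- the two-sided sum is small when `f` vanishes near `j` -/
theorem gg_small (f : ℤ → ℤ) (B : ℝ) (hB : ∀ k, |(f k : ℝ)| ≤ B) (j : ℤ) (ρ : ℕ)
    (h0 : ∀ k, j - ρ < k → k < j + ρ → f k = 0) :
    |gg ε f j| ≤ 2 * B * (1 - ε⁻¹)⁻¹ * ε⁻¹ ^ ρ := by
  have hB0 : 0 ≤ B := le_trans (abs_nonneg _) (hB 0)
  have hr := hb.rpos
  have hr1 := hb.rlt
  have h1r : 0 < 1 - ε⁻¹ := by linarith
  have hinv : 0 < (1 - ε⁻¹)⁻¹ := inv_pos.mpr h1r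
  have h1 : |FF ε f j| ≤ B * ε⁻¹ ^ ρ * (1 - ε⁻¹)⁻¹ := by
    unfold FF
    refine tsum_small hb (fun i : ℕ => f (j + i)) B (fun k => hB _) ρ ?_
    intro k hk
    by_cases hρ : ρ = 0
    · omega
    · exact h0 _ (by omega) (by omega)
  have h2 : |PP ε f j| ≤ B * ε⁻¹ ^ ρ * (1 - ε⁻¹)⁻¹ := by
    have e : PP ε f j = ε⁻¹ * ∑' i : ℕ, (f (j - 1 - i) : ℝ) * ε⁻¹ ^ i := by
      unfold PP
      rw [← tsum_mul_left]
      apply tsum_congr
      intro i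
      rw [pow_succ]; ring
    rw [e, abs_mul, abs_of_pos hr]
    rcases Nat.eq_zero_or_pos ρ with hρ | hρ
    · subst hρ
      have h3 := tsum_small hb (fun i : ℕ => f (j - 1 - i)) B (fun k => hB _) 0 (by omega)
      have h4 : 0 ≤ B * ε⁻¹ ^ 0 * (1 - ε⁻¹)⁻¹ := by positivity
      calc ε⁻¹ * |∑' i : ℕ, (f (j - 1 - i) : ℝ) * ε⁻¹ ^ i|
          ≤ 1 * |∑' i : ℕ, (f (j - 1 - i) : ℝ) * ε⁻¹ ^ i| :=
            mul_le_mul_of_nonneg_right hr1.le (abs_nonneg _)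
        _ = |∑' i : ℕ, (f (j - 1 - i) : ℝ) * ε⁻¹ ^ i| := one_mul _
        _ ≤ _ := h3
    · obtain ⟨m, rfl⟩ : ∃ m, ρ = m + 1 := ⟨ρ - 1, by omega⟩
      have h3 := tsum_small hb (fun i : ℕ => f (j - 1 - i)) B (fun k => hB _) m (by
        intro k hk
        exact h0 _ (by push_cast; omega) (by push_cast; omega))
      calc ε⁻¹ * |∑' i : ℕ, (f (j - 1 - i) : ℝ) * ε⁻¹ ^ i|
          ≤ ε⁻¹ * (B * ε⁻¹ ^ m * (1 - ε⁻¹)⁻¹) := mul_le_mul_of_nonneg_left h3 hr.le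
        _ = B * ε⁻¹ ^ (m + 1) * (1 - ε⁻¹)⁻¹ := by rw [pow_succ]; ring
  unfold gg
  rw [abs_div]
  have hδ := hb.δpos
  rw [abs_of_pos (by linarith : (0:ℝ) < ε - ε⁻¹)]
  have h5 : 0 ≤ 2 * B * (1 - ε⁻¹)⁻¹ * ε⁻¹ ^ ρ := by positivity
  rw [div_le_iff₀ (by linarith)]
  calc |FF ε f j + PP ε f j| ≤ |FF ε f j| + |PP ε f j| := abs_add_le _ _
    _ ≤ 2 * B * (1 - ε⁻¹)⁻¹ * ε⁻¹ ^ ρ := by linarith
    _ = 2 * B * (1 - ε⁻¹)⁻¹ * ε⁻¹ ^ ρ * 1 := (mul_one _).symm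
    _ ≤ 2 * B * (1 - ε⁻¹)⁻¹ * ε⁻¹ ^ ρ * (ε - ε⁻¹) := mul_le_mul_of_nonneg_left hδ.le h5

/-- locally equal sequences give close two-sided sums -/
theorem gg_close (f g : ℤ → ℤ) (B : ℝ) (hB : ∀ k, |(f k : ℝ)| ≤ B) (hB' : ∀ k, |(g k : ℝ)| ≤ B)
    (j : ℤ) (ρ : ℕ) (h0 : ∀ k, j - ρ < k → k < j + ρ → f k = g k) :
    |gg ε f j - gg ε g j| ≤ 4 * B * (1 - ε⁻¹)⁻¹ * ε⁻¹ ^ ρ := by
  rw [← gg_sub hb f g B hB hB']
  have h := gg_small hb (fun k => f k - g k) (2 * B) (by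
    intro k
    push_cast
    calc |(f k : ℝ) - g k| ≤ |(f k : ℝ)| + |(g k : ℝ)| := abs_sub _ _
      _ ≤ 2 * B := by linarith [hB k, hB' k]) j ρ (by
    intro k h1 h2
    simp [h0 k h1 h2])
  calc _ ≤ _ := h
    _ = _ := by ring

/-- reflection -/
theorem gg_reflect (f : ℤ → ℤ) (B : ℝ) (hB : ∀ k, |(f k : ℝ)| ≤ B) (c j : ℤ) :
    gg ε (fun k => f (c - k)) j = gg ε f (c - j) := by
  have h1 : FF ε (fun k => f (c - k)) j = f (c - j) + PP ε f (c - j) := by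
    unfold FF PP
    rw [(summable_geo hb (fun i : ℕ => f (c - (j + i))) B (fun k => hB _)).tsum_eq_zero_add]
    congr 1
    · simp
    · apply tsum_congr
      intro i
      rw [show c - (j + ((i + 1 : ℕ) : ℤ)) = c - j - 1 - i by push_cast; ring]
  have h2 : FF ε f (c - j) = f (c - j) + PP ε (fun k => f (c - k)) j := by
    unfold FF PP
    rw [(summable_geo hb (fun i : ℕ => f (c - j + i)) B (fun k => hB _)).tsum_eq_zero_add]
    congr 1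
    · simp
    · apply tsum_congr
      intro i
      show (f (c - j + ((i + 1 : ℕ) : ℤ)) : ℝ) * ε⁻¹ ^ (i + 1)
        = (f (c - (j - 1 - (i : ℤ))) : ℝ) * ε⁻¹ ^ (i + 1)
      rw [show c - (j - 1 - (i : ℤ)) = c - j + ((i + 1 : ℕ) : ℤ) by push_cast; ring]
  unfold gg
  rw [h1, h2]
  ring

/-- iterating the recursion -/
theorem gg_iter (f : ℤ → ℤ) (B : ℝ) (hB : ∀ k, |(f k : ℝ)| ≤ B) (j : ℤ) (n : ℕ) :
    ∃ z : ℤ, gg ε f (j + n + 1) = U t (n + 1) * gg ε f (j + 1) - U t n * gg ε f j + z := by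
  induction n using Nat.twoStepInduction with
  | zero => exact ⟨0, by simp [U_zero, U_one]⟩
  | one =>
    refine ⟨-f (j + 1), ?_⟩
    have h := gg_rec hb f B hB j
    rw [show j + ((1 : ℕ) : ℤ) + 1 = j + 2 by push_cast; ring, h, U_succ2]
    simp [U_zero, U_one]
    ring
  | more n ih1 ih2 =>
    obtain ⟨z1, h1⟩ := ih1
    obtain ⟨z2, h2⟩ := ih2
    have h := gg_rec hb f B hB (j + n + 1)
    refine ⟨t * z2 - z1 - f (j + n + 1 + 1), ?_⟩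
    rw [show j + ((n + 2 : ℕ) : ℤ) + 1 = j + n + 1 + 2 by push_cast; ring, h,
      show j + (n : ℤ) + 1 + 1 = j + ((n + 1 : ℕ) : ℤ) + 1 by push_cast; ring, h2, h1,
      U_succ2 t (n + 1), U_succ2 t n]
    push_cast
    ring

/-- extension of a one-sided sequence by zero -/
def ext (d : ℕ → ℤ) (k : ℤ) : ℤ := if 0 ≤ k then d k.toNat else 0

omit hb in
theorem ext_nat (d : ℕ → ℤ) (k : ℕ) : ext d (k : ℤ) = d k := by
  simp [ext]

omit hb in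
theorem ext_neg (d : ℕ → ℤ) (k : ℤ) (h : k < 0) : ext d k = 0 := by
  simp [ext, h]

omit hb in
theorem ext_bdd (d : ℕ → ℤ) (B : ℝ) (hB : ∀ k, |(d k : ℝ)| ≤ B) (k : ℤ) :
    |(ext d k : ℝ)| ≤ B := by
  unfold ext
  split_ifs with h
  · exact hB _
  · have := le_trans (abs_nonneg _) (hB 0)
    simpa using this

/-- `u_j β` modulo one -/
theorem U_beta (d : ℕ → ℤ) (B : ℝ) (hB : ∀ k, |(d k : ℝ)| ≤ B) (β : ℝ)
    (hβ : β = ∑' k : ℕ, (d k : ℝ) * ε⁻¹ ^ k) (j : ℕ) :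
    ∃ z : ℤ, (U t j : ℝ) * β = gg ε (ext d) j - ε⁻¹ ^ j * β / (ε - ε⁻¹) + z := by
  have hBe := ext_bdd d B hB
  have hδ := hb.δne
  have hm := hb.mul
  have ha := hb.add
  have hF : FF ε (ext d) 0 = β := by
    unfold FF
    rw [hβ]
    apply tsum_congr
    intro i
    rw [show (0 : ℤ) + (i : ℤ) = (i : ℤ) by ring, ext_nat]
  have hP : PP ε (ext d) 0 = 0 := by
    unfold PP
    rw [show (fun i : ℕ => (ext d (0 - 1 - (i : ℤ)) : ℝ) * ε⁻¹ ^ (i + 1)) = fun _ => 0 from ?_]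
    · exact tsum_zero
    · funext i
      rw [ext_neg d _ (by omega)]
      simp
  have hF1 : FF ε (ext d) 1 = ε * (β - d 0) := by
    have h := FF_rec hb (ext d) B hBe 0
    rw [hF, show (0 : ℤ) + 1 = 1 by ring, show (0 : ℤ) = ((0 : ℕ) : ℤ) by simp, ext_nat] at h
    rw [h]
    calc FF ε (ext d) 1 = (ε * ε⁻¹) * FF ε (ext d) 1 := by rw [hm, one_mul]
      _ = _ := by ring
  have hP1 : PP ε (ext d) 1 = ε⁻¹ * d 0 := by
    have h := PP_rec hb (ext d) B hBe 0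
    rw [hP, show (0 : ℤ) + 1 = 1 by ring, show (0 : ℤ) = ((0 : ℕ) : ℤ) by simp, ext_nat] at h
    rw [h]
    ring
  induction j using Nat.twoStepInduction with
  | zero =>
    refine ⟨0, ?_⟩
    unfold gg
    rw [show (((0 : ℕ) : ℤ)) = 0 by simp, hF, hP, U_zero]
    push_cast
    ring
  | one =>
    refine ⟨d 0, ?_⟩
    unfold gg
    rw [show (((1 : ℕ) : ℤ)) = 1 by simp, hF1, hP1, U_one]
    have : (ε * (β - d 0) + ε⁻¹ * d 0) / (ε - ε⁻¹) - ε⁻¹ ^ 1 * β / (ε - ε⁻¹)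
        = β - d 0 := by
      rw [← sub_div, div_eq_iff hδ]
      ring
    rw [this]
    push_cast
    ring
  | more n ih1 ih2 =>
    obtain ⟨z1, h1⟩ := ih1
    obtain ⟨z2, h2⟩ := ih2
    have h := gg_rec hb (ext d) B hBe n
    refine ⟨t * z2 - z1 + ext d (n + 1), ?_⟩
    rw [U_succ2]
    push_cast at *
    have hp : ε⁻¹ ^ (n + 2) = t * ε⁻¹ ^ (n + 1) - ε⁻¹ ^ n := by
      rw [← ha]
      have e2 : ε * ε⁻¹ ^ (n + 1) = ε⁻¹ ^ n := by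
        rw [pow_succ]; calc ε * (ε⁻¹ ^ n * ε⁻¹) = (ε * ε⁻¹) * ε⁻¹ ^ n := by ring
          _ = ε⁻¹ ^ n := by rw [hm, one_mul]
      linear_combination -e2
    rw [h, hp]
    have e3 : ((t : ℝ) * U t (n + 1) - U t n) * β = t * (U t (n + 1) * β) - U t n * β := by ring
    rw [e3, h1, h2]
    ring

end base

end Pool.H389R2.LC
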