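import Mathlib
import Pool.Agent.H389R2.LC.Two

set_option autoImplicit false

/-!
Periodic sequences give torsion points of small order.
-/

namespace Pool.H389R2.LC

section base
variable {t : ℤ} {ε : ℝ} (hb : Base t ε)
include hb

theorem torsion_int (f : ℤ → ℤ) (B : ℝ) (hB : ∀ k, |(f k : ℝ)| ≤ B) (ℓ : ℕ) (hℓ : 0 < ℓ)
    (σ : ℤ) (hσ : σ = 1 ∨ σ = -1) (h : ∀ k, f (k + ℓ) = σ * f k) :
    ∃ M : ℤ, 0 < M ∧ (M : ℝ) ^ 2 ≤ 16 * ε ^ 4 * ε ^ ℓ ∧
      ∀ j, ∃ z : ℤ, (M : ℝ) * gg ε f j = z := by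
  have hadd := hb.add
  have hr0 := hb.rpos
  have hr1 := hb.rlt
  have h2ε := hb.two_lt
  have ht3 : (3 : ℝ) ≤ t := by exact_mod_cast hb.ht
  have ht2ε : (t : ℝ) ≤ 2 * ε := by linarith
  -- the two basic relations
  obtain ⟨n, rfl⟩ : ∃ n, ℓ = n + 1 := ⟨ℓ - 1, by omega⟩
  have A1 : ∀ j, ∃ z : ℤ, (U t (n + 1) : ℝ) * gg ε f (j + 1) - ((U t n : ℝ) + σ) * gg ε f j = z := by
    intro j
    obtain ⟨z, hz⟩ := gg_iter hb f B hB j n
    have hs := gg_shift (ε := ε) f ((n + 1 : ℕ) : ℤ) σ h j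
    refine ⟨-z, ?_⟩
    rw [show j + ((n + 1 : ℕ) : ℤ) = j + n + 1 by push_cast; ring, hz] at hs
    push_cast
    linear_combination hs
  have A2 : ∀ j, ∃ z : ℤ, ((U t (n + 2) : ℝ) - σ) * gg ε f (j + 1) - (U t (n + 1) : ℝ) * gg ε f j = z := by
    intro j
    obtain ⟨z, hz⟩ := gg_iter hb f B hB j (n + 1)
    have hs := gg_shift (ε := ε) f ((n + 1 : ℕ) : ℤ) σ h (j + 1)
    refine ⟨-z, ?_⟩
    rw [show j + 1 + ((n + 1 : ℕ) : ℤ) = j + ((n + 1 : ℕ) : ℤ) + 1 by push_cast; ring, hz] at hs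
    push_cast
    linear_combination hs
  have hrec : (U t (n + 2) : ℝ) = t * U t (n + 1) - U t n := by
    rw [U_succ2]; push_cast; ring
  rcases Nat.even_or_odd' (n + 1) with ⟨k, hk | hk⟩
  · -- even period
    have hk0 : 0 < k := by omega
    have hinv : (U t (k + 1) : ℝ) ^ 2 - t * U t k * U t (k + 1) + (U t k : ℝ) ^ 2 = 1 := by
      exact_mod_cast U_inv t k
    have hd1 : (U t (n + 1) : ℝ) = U t k * (2 * U t (k + 1) - t * U t k) := by
      rw [hk]; exact_mod_cast (U_double t k).1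
    have hd2 : (U t (n + 2) : ℝ) = (U t (k + 1) : ℝ) ^ 2 - (U t k : ℝ) ^ 2 := by
      rw [show n + 2 = 2 * k + 1 by omega]; exact_mod_cast (U_double t k).2
    have hn : (U t n : ℝ) = t * (U t k * (2 * U t (k + 1) - t * U t k))
        - ((U t (k + 1) : ℝ) ^ 2 - (U t k : ℝ) ^ 2) := by
      rw [hd1, hd2] at hrec
      linarith
    have hx : (U t k : ℝ) ≤ ε ^ k := hb.U_upper k
    have hy : (U t (k + 1) : ℝ) ≤ ε ^ (k + 1) := hb.U_upper (k + 1)
    have hx0 : (0 : ℝ) ≤ U t k := by exact_mod_cast hb.U_nonneg k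
    have hxpos : (0 : ℤ) < U t k := by
      obtain ⟨i, rfl⟩ : ∃ i, k = i + 1 := ⟨k - 1, by omega⟩
      have := hb.U_lower i
      have h2 : 0 < ε ^ i := pow_pos hb.pos _
      have : (0 : ℝ) < U t (i + 1) := by linarith
      exact_mod_cast this
    have hdiff := hb.U_diff k
    have hrk : 0 < ε⁻¹ ^ k := pow_pos hr0 k
    have hrk1 : ε⁻¹ ^ k ≤ 1 := pow_le_one₀ hr0.le hr1.le
    have hεk : 1 ≤ ε ^ k := one_le_pow₀ hb.h1.le
    have hpow : (ε ^ k) ^ 2 = ε ^ (n + 1) := by rw [hk, ← pow_mul, mul_comm]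
    rcases hσ with rfl | rfl
    · refine ⟨(t ^ 2 - 4) * U t k, ?_, ?_, ?_⟩
      · have := hb.ht
        have h5 : 0 < t ^ 2 - 4 := by nlinarith
        exact mul_pos h5 hxpos
      · have hM0 : (0 : ℝ) ≤ ((t : ℝ) ^ 2 - 4) * U t k := by
          apply mul_nonneg _ hx0
          nlinarith
        have hM : ((t : ℝ) ^ 2 - 4) * U t k ≤ 4 * ε ^ 2 * ε ^ k := by
          have h6 : (t : ℝ) ^ 2 - 4 ≤ 4 * ε ^ 2 := by nlinarith
          have h7 : 0 ≤ (t : ℝ) ^ 2 - 4 := by nlinarith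
          calc ((t : ℝ) ^ 2 - 4) * U t k ≤ (4 * ε ^ 2) * U t k :=
                mul_le_mul_of_nonneg_right h6 hx0
            _ ≤ 4 * ε ^ 2 * ε ^ k := mul_le_mul_of_nonneg_left hx (by positivity)
        push_cast
        calc (((t : ℝ) ^ 2 - 4) * U t k) ^ 2 ≤ (4 * ε ^ 2 * ε ^ k) ^ 2 :=
              pow_le_pow_left₀ hM0 hM 2
          _ = 16 * ε ^ 4 * (ε ^ k) ^ 2 := by ring
          _ = 16 * ε ^ 4 * ε ^ (n + 1) := by rw [hpow]
      · intro j
        obtain ⟨z1, h1⟩ := A1 j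
        obtain ⟨z2, h2⟩ := A2 j
        refine ⟨-(t * U t (k + 1) - 2 * U t k) * z1 + (2 * U t (k + 1) - t * U t k) * z2, ?_⟩
        rw [hn, hd1] at h1
        rw [hd2, hd1] at h2
        push_cast at *
        linear_combination (-(t * (U t (k + 1) : ℝ) - 2 * U t k)) * h1
          + (2 * (U t (k + 1) : ℝ) - t * U t k) * h2
          + (-((t : ℝ) ^ 2 - 4) * U t k * gg ε f j + (t * (U t (k + 1) : ℝ) - 2 * U t k) * gg ε f j
            - (2 * (U t (k + 1) : ℝ) - t * U t k) * gg ε f (j + 1)) * hinv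
    · have hv : (2 * (U t (k + 1) : ℝ) - t * U t k) = ε⁻¹ ^ k + (U t (k + 1) - ε⁻¹ * U t k) := by
        rw [← hadd, ← hdiff]; ring
      have hge : ε⁻¹ * (U t k : ℝ) ≤ U t (k + 1) := by
        have : ε⁻¹ * (U t k : ℝ) ≤ ε * U t k :=
          mul_le_mul_of_nonneg_right (by linarith) hx0
        linarith
      have hpos : 0 < (2 * (U t (k + 1) : ℝ) - t * U t k) := by
        rw [hv]; linarith
      have hle : (2 * (U t (k + 1) : ℝ) - t * U t k) ≤ 4 * ε ^ 2 * ε ^ k := by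
        rw [hv]
        have h8 : 0 ≤ ε⁻¹ * (U t k : ℝ) := mul_nonneg hr0.le hx0
        have h9 : ε ^ (k + 1) = ε * ε ^ k := by ring
        rw [h9] at hy
        nlinarith
      refine ⟨2 * U t (k + 1) - t * U t k, ?_, ?_, ?_⟩
      · exact_mod_cast hpos
      · push_cast
        calc (2 * (U t (k + 1) : ℝ) - t * U t k) ^ 2 ≤ (4 * ε ^ 2 * ε ^ k) ^ 2 :=
              pow_le_pow_left₀ hpos.le hle 2
          _ = 16 * ε ^ 4 * (ε ^ k) ^ 2 := by ring
          _ = 16 * ε ^ 4 * ε ^ (n + 1) := by rw [hpow]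
      · intro j
        obtain ⟨z1, h1⟩ := A1 j
        obtain ⟨z2, h2⟩ := A2 j
        refine ⟨U t (k + 1) * z1 - U t k * z2, ?_⟩
        rw [hn, hd1] at h1
        rw [hd2, hd1] at h2
        push_cast at *
        linear_combination (U t (k + 1) : ℝ) * h1 - (U t k : ℝ) * h2
          + (-(2 * (U t (k + 1) : ℝ) - t * U t k) * gg ε f j + (U t (k + 1) : ℝ) * gg ε f j
            - (U t k : ℝ) * gg ε f (j + 1)) * hinv
  · -- odd period
    have hinv : (U t (k + 1) : ℝ) ^ 2 - t * U t k * U t (k + 1) + (U t k : ℝ) ^ 2 = 1 := by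
      exact_mod_cast U_inv t k
    have hn : (U t n : ℝ) = U t k * (2 * U t (k + 1) - t * U t k) := by
      rw [show n = 2 * k by omega]; exact_mod_cast (U_double t k).1
    have hd1 : (U t (n + 1) : ℝ) = (U t (k + 1) : ℝ) ^ 2 - (U t k : ℝ) ^ 2 := by
      rw [hk]; exact_mod_cast (U_double t k).2
    have hd2 : (U t (n + 2) : ℝ) = t * ((U t (k + 1) : ℝ) ^ 2 - (U t k : ℝ) ^ 2)
        - U t k * (2 * U t (k + 1) - t * U t k) := by
      rw [hrec, hd1, hn]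
    have hx : (U t k : ℝ) ≤ ε ^ k := hb.U_upper k
    have hy : (U t (k + 1) : ℝ) ≤ ε ^ (k + 1) := hb.U_upper (k + 1)
    have hx0 : (0 : ℝ) ≤ U t k := by exact_mod_cast hb.U_nonneg k
    have hypos : (0 : ℝ) < U t (k + 1) := by
      have := hb.U_lower k
      have h2 : 0 < ε ^ k := pow_pos hb.pos _
      linarith
    have hdiff := hb.U_diff k
    have hrk : 0 < ε⁻¹ ^ k := pow_pos hr0 k
    have hεk : 1 ≤ ε ^ k := one_le_pow₀ hb.h1.le
    have hxy : (U t k : ℝ) < U t (k + 1) := by nlinarith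
    have hpow : (ε ^ k) ^ 2 ≤ ε ^ (n + 1) := by
      rw [hk, ← pow_mul, mul_comm]
      exact pow_le_pow_right₀ hb.h1.le (by omega)
    have h9 : ε ^ (k + 1) = ε * ε ^ k := by ring
    rw [h9] at hy
    rcases hσ with rfl | rfl
    · have hpos : 0 < ((t : ℝ) - 2) * (U t k + U t (k + 1)) := by
        apply mul_pos <;> linarith
      have hle : ((t : ℝ) - 2) * (U t k + U t (k + 1)) ≤ 4 * ε ^ 2 * ε ^ k := by
        have h10 : (U t k + U t (k + 1) : ℝ) ≤ 2 * (ε * ε ^ k) := by linarith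
        calc ((t : ℝ) - 2) * (U t k + U t (k + 1)) ≤ (2 * ε) * (2 * (ε * ε ^ k)) :=
              mul_le_mul (by linarith) h10 (by linarith) (by linarith)
          _ = 4 * ε ^ 2 * ε ^ k := by ring
      refine ⟨(t - 2) * (U t k + U t (k + 1)), ?_, ?_, ?_⟩
      · exact_mod_cast hpos
      · push_cast
        calc (((t : ℝ) - 2) * (U t k + U t (k + 1))) ^ 2 ≤ (4 * ε ^ 2 * ε ^ k) ^ 2 :=
              pow_le_pow_left₀ hpos.le hle 2
          _ = 16 * ε ^ 4 * (ε ^ k) ^ 2 := by ring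
          _ ≤ 16 * ε ^ 4 * ε ^ (n + 1) := mul_le_mul_of_nonneg_left hpow (by positivity)
      · intro j
        obtain ⟨z1, h1⟩ := A1 j
        obtain ⟨z2, h2⟩ := A2 j
        refine ⟨-(t * U t (k + 1) - U t k - U t (k + 1)) * z1 + (U t (k + 1) - U t k) * z2, ?_⟩
        rw [hn, hd1] at h1
        rw [hd2, hd1] at h2
        push_cast at *
        linear_combination (-(t * (U t (k + 1) : ℝ) - U t k - U t (k + 1))) * h1
          + ((U t (k + 1) : ℝ) - U t k) * h2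
          + (-((t : ℝ) - 2) * (U t k + U t (k + 1)) * gg ε f j
            + (t * (U t (k + 1) : ℝ) - U t k - U t (k + 1)) * gg ε f j
            - ((U t (k + 1) : ℝ) - U t k) * gg ε f (j + 1)) * hinv
    · have hpos : 0 < ((t : ℝ) + 2) * (U t (k + 1) - U t k) := by
        apply mul_pos <;> linarith
      have hle : ((t : ℝ) + 2) * (U t (k + 1) - U t k) ≤ 4 * ε ^ 2 * ε ^ k := by
        have h10 : (U t (k + 1) - U t k : ℝ) ≤ (ε * ε ^ k) := by linarith
        calc ((t : ℝ) + 2) * (U t (k + 1) - U t k) ≤ (4 * ε) * ((ε * ε ^ k)) :=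
              mul_le_mul (by linarith) h10 (by linarith) (by linarith)
          _ = 4 * ε ^ 2 * ε ^ k := by ring
      refine ⟨(t + 2) * (U t (k + 1) - U t k), ?_, ?_, ?_⟩
      · exact_mod_cast hpos
      · push_cast
        calc (((t : ℝ) + 2) * (U t (k + 1) - U t k)) ^ 2 ≤ (4 * ε ^ 2 * ε ^ k) ^ 2 :=
              pow_le_pow_left₀ hpos.le hle 2
          _ = 16 * ε ^ 4 * (ε ^ k) ^ 2 := by ring
          _ ≤ 16 * ε ^ 4 * ε ^ (n + 1) := mul_le_mul_of_nonneg_left hpow (by positivity)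
      · intro j
        obtain ⟨z1, h1⟩ := A1 j
        obtain ⟨z2, h2⟩ := A2 j
        refine ⟨(U t (k + 1) - U t k + t * U t (k + 1)) * z1 - (U t (k + 1) + U t k) * z2, ?_⟩
        rw [hn, hd1] at h1
        rw [hd2, hd1] at h2
        push_cast at *
        linear_combination ((U t (k + 1) : ℝ) - U t k + t * U t (k + 1)) * h1
          - ((U t (k + 1) : ℝ) + U t k) * h2
          + (-((t : ℝ) + 2) * (U t (k + 1) - U t k) * gg ε f j
            + ((U t (k + 1) : ℝ) - U t k + t * U t (k + 1)) * gg ε f j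
            - ((U t (k + 1) : ℝ) + U t k) * gg ε f (j + 1)) * hinv

end base

/-- small linear forms vanishing modulo `m` -/
theorem pigeon (m : ℕ) (hm : 0 < m) (P Q : ℤ) :
    ∃ a b : ℤ, (a ≠ 0 ∨ b ≠ 0) ∧ |a| ≤ Nat.sqrt m ∧ |b| ≤ Nat.sqrt m ∧
      (m : ℤ) ∣ a * P + b * Q := by
  set s := Nat.sqrt m
  have hcard : (Finset.range m).card < ((Finset.range (s + 1)) ×ˢ (Finset.range (s + 1))).card := by
    rw [Finset.card_product, Finset.card_range, Finset.card_range]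
    exact Nat.lt_succ_sqrt m
  let g : ℕ × ℕ → ℕ := fun x => (((x.1 : ℤ) * P + (x.2 : ℤ) * Q) % (m : ℤ)).toNat
  have hg : ∀ x ∈ ((Finset.range (s + 1)) ×ˢ (Finset.range (s + 1))), g x ∈ Finset.range m := by
    intro x _
    rw [Finset.mem_range]
    have h1 := Int.emod_nonneg ((x.1 : ℤ) * P + (x.2 : ℤ) * Q) (b := (m : ℤ)) (by omega)
    have h2 := Int.emod_lt_of_pos ((x.1 : ℤ) * P + (x.2 : ℤ) * Q) (b := (m : ℤ)) (by omega)
    show (((x.1 : ℤ) * P + (x.2 : ℤ) * Q) % (m : ℤ)).toNat < m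
    omega
  obtain ⟨x, hx, y, hy, hne, hxy⟩ := Finset.exists_ne_map_eq_of_card_lt_of_maps_to hcard hg
  rw [Finset.mem_product, Finset.mem_range, Finset.mem_range] at hx hy
  refine ⟨(x.1 : ℤ) - y.1, (x.2 : ℤ) - y.2, ?_, ?_, ?_, ?_⟩
  · by_contra hcon
    push Not at hcon
    apply hne
    ext
    · have := hcon.1; omega
    · have := hcon.2; omega
  · rw [abs_le]; constructor <;> omega
  · rw [abs_le]; constructor <;> omega
  · have h1 := Int.emod_nonneg ((x.1 : ℤ) * P + (x.2 : ℤ) * Q) (b := (m : ℤ)) (by omega)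
    have h2 := Int.emod_nonneg ((y.1 : ℤ) * P + (y.2 : ℤ) * Q) (b := (m : ℤ)) (by omega)
    have h3 : ((x.1 : ℤ) * P + (x.2 : ℤ) * Q) % (m : ℤ) = ((y.1 : ℤ) * P + (y.2 : ℤ) * Q) % (m : ℤ) := by
      have : (((x.1 : ℤ) * P + (x.2 : ℤ) * Q) % (m : ℤ)).toNat
        = (((y.1 : ℤ) * P + (y.2 : ℤ) * Q) % (m : ℤ)).toNat := hxy
      omega
    have h5 : (m : ℤ) ∣ ((x.1 : ℤ) * P + (x.2 : ℤ) * Q) - ((y.1 : ℤ) * P + (y.2 : ℤ) * Q) :=
      Int.ModEq.dvd (h3.symm)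
    have e : ((x.1 : ℤ) - y.1) * P + ((x.2 : ℤ) - y.2) * Q
        = ((x.1 : ℤ) * P + (x.2 : ℤ) * Q) - ((y.1 : ℤ) * P + (y.2 : ℤ) * Q) := by ring
    rw [e]; exact h5

end Pool.H389R2.LC
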