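import Mathlib
import Pool.Agent.H389R2.LC.Tors

set_option autoImplicit false

/-!
From multipliers to the Littlewood product.
-/

namespace Pool.H389R2.LC

/-- the Littlewood product `q ‖qα‖ ‖qβ‖` -/
noncomputable def L (α β : ℝ) (q : ℕ) : ℝ :=
  (q : ℝ) * |(q : ℝ) * α - (round ((q : ℝ) * α) : ℝ)|
        * |(q : ℝ) * β - (round ((q : ℝ) * β) : ℝ)|

theorem L_nonneg (α β : ℝ) (q : ℕ) : 0 ≤ L α β q := by
  unfold L; positivity

theorem dist_mul (x : ℝ) (n : ℕ) :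
    |(n : ℝ) * x - (round ((n : ℝ) * x) : ℝ)| ≤ n * |x - (round x : ℝ)| := by
  calc |(n : ℝ) * x - (round ((n : ℝ) * x) : ℝ)| ≤ |(n : ℝ) * x - (((n : ℤ) * round x : ℤ) : ℝ)| :=
        round_le _ _
    _ = |(n : ℝ) * (x - (round x : ℝ))| := by push_cast; ring_nf
    _ = n * |x - (round x : ℝ)| := by rw [abs_mul, abs_of_nonneg (Nat.cast_nonneg n)]

/-- an infimum equal to zero gives a lower limit equal to zero -/
theorem liminf_of_inf (α β : ℝ) (h : ∀ η : ℝ, 0 < η → ∃ q : ℕ, 0 < q ∧ L α β q < η) :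
    ∀ η : ℝ, 0 < η → ∀ N : ℕ, ∃ q : ℕ, N ≤ q ∧ 0 < q ∧ L α β q < η := by
  intro η hη N
  by_cases hz : ∃ q : ℕ, 0 < q ∧ L α β q = 0
  · obtain ⟨q, hq, h0⟩ := hz
    refine ⟨(N + 1) * q, ?_, Nat.mul_pos (Nat.succ_pos _) hq, ?_⟩
    · nlinarith
    · have h1 := dist_mul ((q : ℝ) * α) (N + 1)
      have h2 := dist_mul ((q : ℝ) * β) (N + 1)
      have hq' : (0 : ℝ) < q := by exact_mod_cast hq
      have e1 : (((N + 1) * q : ℕ) : ℝ) * α = ((N + 1 : ℕ) : ℝ) * ((q : ℝ) * α) := by push_cast; ring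
      have e2 : (((N + 1) * q : ℕ) : ℝ) * β = ((N + 1 : ℕ) : ℝ) * ((q : ℝ) * β) := by push_cast; ring
      unfold L at h0 ⊢
      rw [e1, e2]
      rcases mul_eq_zero.mp h0 with h3 | h3
      · rcases mul_eq_zero.mp h3 with h4 | h4
        · linarith
        · rw [h4, mul_zero] at h1
          have : |((N + 1 : ℕ) : ℝ) * ((q : ℝ) * α) - (round (((N + 1 : ℕ) : ℝ) * ((q : ℝ) * α)) : ℝ)| = 0 :=
            le_antisymm h1 (abs_nonneg _)
          rw [this, mul_zero, zero_mul]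
          exact hη
      · rw [h3, mul_zero] at h2
        have : |((N + 1 : ℕ) : ℝ) * ((q : ℝ) * β) - (round (((N + 1 : ℕ) : ℝ) * ((q : ℝ) * β)) : ℝ)| = 0 :=
          le_antisymm h2 (abs_nonneg _)
        rw [this, mul_zero]
        exact hη
  · push Not at hz
    -- minimum over q ≤ N
    have hmin : ∃ μ : ℝ, 0 < μ ∧ ∀ q : ℕ, 0 < q → q < N → μ ≤ L α β q := by
      induction N with
      | zero => exact ⟨1, one_pos, by intro q _ h2; omega⟩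
      | succ n ih =>
        obtain ⟨μ, hμ, hh⟩ := ih
        rcases Nat.eq_zero_or_pos n with hn | hn
        · exact ⟨1, one_pos, by intro q _ h2; omega⟩
        · refine ⟨min μ (L α β n), lt_min hμ (lt_of_le_of_ne (L_nonneg α β n) (Ne.symm (hz n hn))), ?_⟩
          intro q hq hqn
          rcases Nat.lt_succ_iff_lt_or_eq.mp hqn with h1 | h1
          · exact le_trans (min_le_left _ _) (hh q hq h1)
          · subst h1; exact min_le_right _ _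
    obtain ⟨μ, hμ, hh⟩ := hmin
    obtain ⟨q, hq, hL⟩ := h (min η μ) (lt_min hη hμ)
    refine ⟨q, ?_, hq, lt_of_lt_of_le hL (min_le_left _ _)⟩
    by_contra hcon
    push Not at hcon
    have := hh q hq hcon
    have h3 := lt_of_lt_of_le hL (min_le_right _ _)
    linarith

/-- unbounded statement from a power -/
theorem exists_pow_small {r : ℝ} (_h0 : 0 < r) (h1 : r < 1) (C η : ℝ) (hη : 0 < η) :
    ∃ K : ℕ, C * r ^ K < η := by
  rcases le_or_gt C 0 with hC | hC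
  · exact ⟨0, by simp; linarith⟩
  · obtain ⟨K, hK⟩ := exists_pow_lt_of_lt_one (div_pos hη hC) h1
    refine ⟨K, ?_⟩
    rw [lt_div_iff₀ hC] at hK
    linarith

section base
variable {t : ℤ} {ε : ℝ} (hb : Base t ε)
include hb

/-- a multiplier `a u_j + b u_{j+1}` -/
theorem key (α β : ℝ) (A0 B0 : ℤ) (c : ℕ) (hc : 0 < c) (hα : (c : ℝ) * α = A0 + B0 * ε)
    (d : ℕ → ℤ) (B : ℝ) (hB : ∀ k, |(d k : ℝ)| ≤ B)
    (hβ : β = ∑' k : ℕ, (d k : ℝ) * ε⁻¹ ^ k) (j : ℕ) (a b : ℤ)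
    (hne : a * U t j + b * U t (j + 1) ≠ 0) (S : ℝ) (hS : |(a : ℝ)| + |(b : ℝ)| ≤ S)
    (κ : ℝ) (z : ℤ) (hκ : |a * gg ε (ext d) j + b * gg ε (ext d) (j + 1) - z| ≤ κ) :
    ∃ q : ℕ, 0 < q ∧ (q : ℝ) ≤ c * S * ε ^ (j + 1) ∧
      L α β q ≤ c ^ 2 * |(B0 : ℝ)| * ε * S ^ 2 * (κ + S * ε⁻¹ ^ j * |β|) := by
  have hε := hb.pos
  have hr0 := hb.rpos
  have hr1 := hb.rlt
  have hδ := hb.δpos
  have hm := hb.mul
  have ha0 := abs_nonneg (a : ℝ)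
  have hb0 := abs_nonneg (b : ℝ)
  have hS0 : 0 ≤ S := by linarith
  have hκ0 : 0 ≤ κ := le_trans (abs_nonneg _) hκ
  have hrj : 0 < ε⁻¹ ^ j := pow_pos hr0 j
  have hεj : 0 < ε ^ j := pow_pos hε j
  set q0 : ℤ := a * U t j + b * U t (j + 1) with hq0
  have hcr : (0 : ℝ) < c := by exact_mod_cast hc
  -- size
  have hsize : |(q0 : ℝ)| ≤ S * ε ^ (j + 1) := by
    have hu1 : |(U t j : ℝ)| ≤ ε ^ (j + 1) := by
      rw [abs_of_nonneg (by exact_mod_cast hb.U_nonneg j)]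
      exact le_trans (hb.U_upper j) (pow_le_pow_right₀ hb.h1.le (by omega))
    have hu2 : |(U t (j + 1) : ℝ)| ≤ ε ^ (j + 1) := by
      rw [abs_of_nonneg (by exact_mod_cast hb.U_nonneg (j + 1))]
      exact hb.U_upper (j + 1)
    rw [hq0]
    push_cast
    calc |(a : ℝ) * U t j + b * U t (j + 1)| ≤ |(a : ℝ) * U t j| + |(b : ℝ) * U t (j + 1)| :=
          abs_add_le _ _
      _ = |(a : ℝ)| * |(U t j : ℝ)| + |(b : ℝ)| * |(U t (j + 1) : ℝ)| := by rw [abs_mul, abs_mul]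
      _ ≤ |(a : ℝ)| * ε ^ (j + 1) + |(b : ℝ)| * ε ^ (j + 1) := by
          apply add_le_add
          · exact mul_le_mul_of_nonneg_left hu1 ha0
          · exact mul_le_mul_of_nonneg_left hu2 hb0
      _ = (|(a : ℝ)| + |(b : ℝ)|) * ε ^ (j + 1) := by ring
      _ ≤ S * ε ^ (j + 1) := mul_le_mul_of_nonneg_right hS (pow_pos hε _).le
  -- distance of q0 ε
  have hd1 : ∃ w : ℤ, |(q0 : ℝ) * ε - w| ≤ S * ε⁻¹ ^ j := by
    refine ⟨a * U t (j + 1) + b * U t (j + 2), ?_⟩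
    have e1 := hb.U_diff j
    have e2 := hb.U_diff (j + 1)
    have e3 : (q0 : ℝ) * ε - ((a * U t (j + 1) + b * U t (j + 2) : ℤ) : ℝ)
        = -(a * ε⁻¹ ^ j + b * ε⁻¹ ^ (j + 1)) := by
      rw [hq0, ← e1, ← e2]
      push_cast
      ring
    rw [e3, abs_neg]
    have hp : ε⁻¹ ^ (j + 1) ≤ ε⁻¹ ^ j := pow_le_pow_of_le_one hr0.le hr1.le (by omega)
    calc |(a : ℝ) * ε⁻¹ ^ j + b * ε⁻¹ ^ (j + 1)| ≤ |(a : ℝ) * ε⁻¹ ^ j| + |(b : ℝ) * ε⁻¹ ^ (j + 1)| :=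
          abs_add_le _ _
      _ = |(a : ℝ)| * ε⁻¹ ^ j + |(b : ℝ)| * ε⁻¹ ^ (j + 1) := by
          rw [abs_mul, abs_mul, abs_of_pos hrj, abs_of_pos (pow_pos hr0 (j + 1))]
      _ ≤ |(a : ℝ)| * ε⁻¹ ^ j + |(b : ℝ)| * ε⁻¹ ^ j := by
          have := mul_le_mul_of_nonneg_left hp hb0
          linarith
      _ = (|(a : ℝ)| + |(b : ℝ)|) * ε⁻¹ ^ j := by ring
      _ ≤ S * ε⁻¹ ^ j := mul_le_mul_of_nonneg_right hS hrj.le
  -- distance of q0 β
  have hd2 : ∃ w : ℤ, |(q0 : ℝ) * β - w| ≤ κ + S * ε⁻¹ ^ j * |β| := by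
    obtain ⟨z1, h1⟩ := U_beta hb d B hB β hβ j
    obtain ⟨z2, h2⟩ := U_beta hb d B hB β hβ (j + 1)
    refine ⟨z + a * z1 + b * z2, ?_⟩
    have e3 : (q0 : ℝ) * β - ((z + a * z1 + b * z2 : ℤ) : ℝ)
        = (a * gg ε (ext d) j + b * gg ε (ext d) (j + 1) - z)
          - (a * ε⁻¹ ^ j + b * ε⁻¹ ^ (j + 1)) * (β / (ε - ε⁻¹)) := by
      have e4 : (q0 : ℝ) * β = a * ((U t j : ℝ) * β) + b * ((U t (j + 1) : ℝ) * β) := by
        rw [hq0]; push_cast; ring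
      rw [e4, h1, h2]
      push_cast
      ring
    rw [e3]
    have hp : ε⁻¹ ^ (j + 1) ≤ ε⁻¹ ^ j := pow_le_pow_of_le_one hr0.le hr1.le (by omega)
    have h5 : |(a : ℝ) * ε⁻¹ ^ j + b * ε⁻¹ ^ (j + 1)| ≤ S * ε⁻¹ ^ j := by
      calc |(a : ℝ) * ε⁻¹ ^ j + b * ε⁻¹ ^ (j + 1)| ≤ |(a : ℝ) * ε⁻¹ ^ j| + |(b : ℝ) * ε⁻¹ ^ (j + 1)| :=
            abs_add_le _ _
        _ = |(a : ℝ)| * ε⁻¹ ^ j + |(b : ℝ)| * ε⁻¹ ^ (j + 1) := by
            rw [abs_mul, abs_mul, abs_of_pos hrj, abs_of_pos (pow_pos hr0 (j + 1))]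
        _ ≤ |(a : ℝ)| * ε⁻¹ ^ j + |(b : ℝ)| * ε⁻¹ ^ j := by
            have := mul_le_mul_of_nonneg_left hp hb0
            linarith
        _ = (|(a : ℝ)| + |(b : ℝ)|) * ε⁻¹ ^ j := by ring
        _ ≤ S * ε⁻¹ ^ j := mul_le_mul_of_nonneg_right hS hrj.le
    have h6 : |β / (ε - ε⁻¹)| ≤ |β| := by
      rw [abs_div, abs_of_pos (by linarith : (0 : ℝ) < ε - ε⁻¹)]
      exact div_le_self (abs_nonneg _) hδ.le
    calc |(a * gg ε (ext d) j + b * gg ε (ext d) (j + 1) - z)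
          - (a * ε⁻¹ ^ j + b * ε⁻¹ ^ (j + 1)) * (β / (ε - ε⁻¹))|
        ≤ |a * gg ε (ext d) j + b * gg ε (ext d) (j + 1) - z|
          + |(a * ε⁻¹ ^ j + b * ε⁻¹ ^ (j + 1)) * (β / (ε - ε⁻¹))| := abs_sub _ _
      _ = |a * gg ε (ext d) j + b * gg ε (ext d) (j + 1) - z|
          + |(a : ℝ) * ε⁻¹ ^ j + b * ε⁻¹ ^ (j + 1)| * |β / (ε - ε⁻¹)| := by rw [abs_mul]
      _ ≤ κ + (S * ε⁻¹ ^ j) * |β| := by
          apply add_le_add hκ
          exact mul_le_mul h5 h6 (abs_nonneg _) (by positivity)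
  obtain ⟨w1, hw1⟩ := hd1
  obtain ⟨w2, hw2⟩ := hd2
  have hnat : (0 : ℕ) < q0.natAbs := Int.natAbs_pos.mpr hne
  refine ⟨c * q0.natAbs, Nat.mul_pos hc hnat, ?_, ?_⟩
  · push_cast
    rw [show ((q0.natAbs : ℕ) : ℝ) = |(q0 : ℝ)| by rw [Nat.cast_natAbs]; push_cast; rfl]
    calc (c : ℝ) * |(q0 : ℝ)| ≤ c * (S * ε ^ (j + 1)) := mul_le_mul_of_nonneg_left hsize hcr.le
      _ = _ := by ring
  · -- sign
    obtain ⟨sg, hsg, hsgq⟩ : ∃ sg : ℤ, (sg = 1 ∨ sg = -1) ∧ ((q0.natAbs : ℕ) : ℤ) = sg * q0 := by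
      rcases abs_choice q0 with h | h
      · exact ⟨1, Or.inl rfl, by rw [Int.natCast_natAbs, h]; ring⟩
      · exact ⟨-1, Or.inr rfl, by rw [Int.natCast_natAbs, h]; ring⟩
    have hsgr : ((q0.natAbs : ℕ) : ℝ) = sg * q0 := by
      rw [← Int.cast_natCast, hsgq]; push_cast; ring
    have hsgabs : |(sg : ℝ)| = 1 := by
      rcases hsg with h | h <;> rw [h] <;> simp
    have hqabs : ((q0.natAbs : ℕ) : ℝ) = |(q0 : ℝ)| := by rw [Nat.cast_natAbs]; push_cast; rfl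
    have hx1 : |((c * q0.natAbs : ℕ) : ℝ) * α - (round (((c * q0.natAbs : ℕ) : ℝ) * α) : ℝ)|
        ≤ |(B0 : ℝ)| * (S * ε⁻¹ ^ j) := by
      calc |((c * q0.natAbs : ℕ) : ℝ) * α - (round (((c * q0.natAbs : ℕ) : ℝ) * α) : ℝ)|
          ≤ |((c * q0.natAbs : ℕ) : ℝ) * α - ((sg * (q0 * A0 + B0 * w1) : ℤ) : ℝ)| := round_le _ _
        _ = |(sg : ℝ) * (B0 * ((q0 : ℝ) * ε - w1))| := by
            congr 1
            push_cast
            calc (c : ℝ) * (q0.natAbs : ℝ) * α - sg * (q0 * A0 + B0 * w1)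
                = (q0.natAbs : ℝ) * (c * α) - sg * (q0 * A0 + B0 * w1) := by ring
              _ = sg * (B0 * (q0 * ε - w1)) := by rw [hα, hsgr]; ring
        _ = |(B0 : ℝ)| * |(q0 : ℝ) * ε - w1| := by rw [abs_mul, abs_mul, hsgabs, one_mul]
        _ ≤ |(B0 : ℝ)| * (S * ε⁻¹ ^ j) := mul_le_mul_of_nonneg_left hw1 (abs_nonneg _)
    have hx2 : |((c * q0.natAbs : ℕ) : ℝ) * β - (round (((c * q0.natAbs : ℕ) : ℝ) * β) : ℝ)|
        ≤ c * (κ + S * ε⁻¹ ^ j * |β|) := by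
      calc |((c * q0.natAbs : ℕ) : ℝ) * β - (round (((c * q0.natAbs : ℕ) : ℝ) * β) : ℝ)|
          ≤ |((c * q0.natAbs : ℕ) : ℝ) * β - ((sg * (c * w2) : ℤ) : ℝ)| := round_le _ _
        _ = |(sg : ℝ) * (c * ((q0 : ℝ) * β - w2))| := by
            congr 1
            push_cast
            rw [hsgr]; ring
        _ = c * |(q0 : ℝ) * β - w2| := by
            rw [abs_mul, abs_mul, hsgabs, one_mul, abs_of_pos hcr]
        _ ≤ c * (κ + S * ε⁻¹ ^ j * |β|) := mul_le_mul_of_nonneg_left hw2 hcr.le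
    have hx3 : ((c * q0.natAbs : ℕ) : ℝ) ≤ c * (S * ε ^ (j + 1)) := by
      push_cast
      rw [hqabs]
      exact mul_le_mul_of_nonneg_left hsize hcr.le
    unfold L
    have hκ1 : 0 ≤ κ + S * ε⁻¹ ^ j * |β| := by positivity
    calc ((c * q0.natAbs : ℕ) : ℝ)
          * |((c * q0.natAbs : ℕ) : ℝ) * α - (round (((c * q0.natAbs : ℕ) : ℝ) * α) : ℝ)|
          * |((c * q0.natAbs : ℕ) : ℝ) * β - (round (((c * q0.natAbs : ℕ) : ℝ) * β) : ℝ)|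
        ≤ (c * (S * ε ^ (j + 1))) * (|(B0 : ℝ)| * (S * ε⁻¹ ^ j)) * (c * (κ + S * ε⁻¹ ^ j * |β|)) := by
          apply mul_le_mul _ hx2 (abs_nonneg _) (by positivity)
          apply mul_le_mul hx3 hx1 (abs_nonneg _) (by positivity)
      _ = c ^ 2 * |(B0 : ℝ)| * (ε * (ε ^ j * ε⁻¹ ^ j)) * S ^ 2 * (κ + S * ε⁻¹ ^ j * |β|) := by ring
      _ = _ := by
          rw [← mul_pow, hm, one_pow, mul_one]

end base

/-- signs -/
theorem exists_sign (σ : ℤ) (hσ : σ = 1 ∨ σ = -1) :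
    ∃ e : ℤ → ℤ, e 0 = 1 ∧ (∀ n, e (n + 1) = σ * e n) ∧ ∀ n, |e n| = 1 := by
  rcases hσ with rfl | rfl
  · exact ⟨fun _ => 1, rfl, by intro n; simp, by intro n; simp⟩
  · refine ⟨fun n => (Int.negOnePow n : ℤ), by simp, ?_, ?_⟩
    · intro n
      show ((Int.negOnePow (n + 1) : ℤˣ) : ℤ) = -1 * ((Int.negOnePow n : ℤˣ) : ℤ)
      rw [Int.negOnePow_succ]
      push_cast
      ring
    · intro n
      rcases Int.units_eq_one_or (Int.negOnePow n) with h | h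
      · show |((Int.negOnePow n : ℤˣ) : ℤ)| = 1
        rw [h]; simp
      · show |((Int.negOnePow n : ℤˣ) : ℤ)| = 1
        rw [h]; simp

/-- periodic extension of a block -/
theorem per_ext (d : ℕ → ℤ) (B : ℝ) (hB : ∀ k, |(d k : ℝ)| ≤ B) (s ℓ R : ℕ) (hℓ : 0 < ℓ)
    (σ : ℤ) (hσ : σ = 1 ∨ σ = -1)
    (hper : ∀ k, s ≤ k → k + ℓ < s + R → d (k + ℓ) = σ * d k) :
    ∃ D : ℤ → ℤ, (∀ k, |(D k : ℝ)| ≤ B) ∧ (∀ k, D (k + ℓ) = σ * D k) ∧
      ∀ k : ℕ, s ≤ k → k < s + R → D k = d k := by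
  obtain ⟨e, he0, he1, he2⟩ := exists_sign σ hσ
  have hℓ' : (0 : ℤ) < ℓ := by exact_mod_cast hℓ
  refine ⟨fun k => e ((k - s) / ℓ) * d (s + ((k - s) % ℓ).toNat), ?_, ?_, ?_⟩
  · intro k
    push_cast
    rw [abs_mul]
    have : |(e ((k - s) / ℓ) : ℝ)| = 1 := by
      have := he2 ((k - s) / ℓ)
      rw [← Int.cast_abs, this]; simp
    rw [this, one_mul]
    exact hB _
  · intro k
    show e ((k + ℓ - s) / ℓ) * d (s + ((k + ℓ - s) % ℓ).toNat)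
      = σ * (e ((k - s) / ℓ) * d (s + ((k - s) % ℓ).toNat))
    have e1 : (k + ℓ - s) / (ℓ : ℤ) = (k - s) / ℓ + 1 := by
      rw [show k + (ℓ : ℤ) - s = (k - s) + ℓ * 1 by ring, Int.add_mul_ediv_left _ _ hℓ'.ne']
    have e2 : (k + ℓ - s) % (ℓ : ℤ) = (k - s) % ℓ := by
      rw [show k + (ℓ : ℤ) - s = (k - s) + ℓ * 1 by ring, Int.add_mul_emod_self_left]
    rw [e1, e2, he1]
    ring
  · -- induction on k
    have hD : ∀ k : ℤ, e ((k + ℓ - s) / ℓ) * d (s + ((k + ℓ - s) % ℓ).toNat)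
      = σ * (e ((k - s) / ℓ) * d (s + ((k - s) % ℓ).toNat)) := by
      intro k
      have e1 : (k + ℓ - s) / (ℓ : ℤ) = (k - s) / ℓ + 1 := by
        rw [show k + (ℓ : ℤ) - s = (k - s) + ℓ * 1 by ring, Int.add_mul_ediv_left _ _ hℓ'.ne']
      have e2 : (k + ℓ - s) % (ℓ : ℤ) = (k - s) % ℓ := by
        rw [show k + (ℓ : ℤ) - s = (k - s) + ℓ * 1 by ring, Int.add_mul_emod_self_left]
      rw [e1, e2, he1]
      ring
    intro k
    induction k using Nat.strong_induction_on with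
    | _ k ih =>
      intro h1 h2
      show e (((k : ℤ) - s) / ℓ) * d (s + (((k : ℤ) - s) % ℓ).toNat) = d k
      rcases Nat.lt_or_ge k (s + ℓ) with h3 | h3
      · have e1 : ((k : ℤ) - s) / (ℓ : ℤ) = 0 := Int.ediv_eq_zero_of_lt (by omega) (by omega)
        have e2 : ((k : ℤ) - s) % (ℓ : ℤ) = k - s := Int.emod_eq_of_lt (by omega) (by omega)
        rw [e1, e2, he0, one_mul]
        congr 1
        omega
      · have h4 := ih (k - ℓ) (by omega) (by omega) (by omega)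
        have h5 := hD ((k - ℓ : ℕ) : ℤ)
        have e3 : (((k - ℓ : ℕ) : ℤ)) + ℓ = k := by omega
        rw [e3] at h5
        rw [h5]
        have h6 : e ((((k - ℓ : ℕ) : ℤ) - s) / ℓ) * d (s + ((((k - ℓ : ℕ) : ℤ) - s) % ℓ).toNat)
          = d (k - ℓ) := h4
        rw [h6, ← hper (k - ℓ) (by omega) (by omega)]
        congr 1
        omega

end Pool.H389R2.LC
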