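import Mathlib
import Pool.Agent.H389R2.LC.Approx

set_option autoImplicit false

/-!
A repetition `d(k+ℓ) = σ d(k)` on a window of length `R ≥ 3ℓ/2 + const` gives a multiplier
with small Littlewood product.
-/

namespace Pool.H389R2.LC

section base
variable {t : ℤ} {ε : ℝ} (hb : Base t ε)
include hb

theorem block (α β : ℝ) (A0 B0 : ℤ) (c : ℕ) (hc : 0 < c) (hα : (c : ℝ) * α = A0 + B0 * ε)
    (d : ℕ → ℤ) (B : ℝ) (hB : ∀ k, |(d k : ℝ)| ≤ B)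
    (hβ : β = ∑' k : ℕ, (d k : ℝ) * ε⁻¹ ^ k) :
    ∃ C : ℝ, 0 < C ∧ ∀ s ℓ R : ℕ, 0 < ℓ → 3 * ℓ + 10 ≤ 2 * R →
      (∃ σ : ℤ, (σ = 1 ∨ σ = -1) ∧ ∀ k, s ≤ k → k + ℓ < s + R → d (k + ℓ) = σ * d k) →
      ∃ q : ℕ, 0 < q ∧ (q : ℝ) ≤ C * ε ^ (s + 2 * R) ∧
        (L α β q) ^ 4 ≤ C * ε ^ (3 * ℓ) * ε⁻¹ ^ (2 * R) := by
  have hε := hb.pos
  have hr0 := hb.rpos
  have hr1 := hb.rlt
  have hm1 := hb.mul
  have h2ε := hb.two_lt
  have hB0 : 0 ≤ B := le_trans (abs_nonneg _) (hB 0)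
  have hcr : (0 : ℝ) < c := by exact_mod_cast hc
  have h1r : 0 < 1 - ε⁻¹ := by linarith
  set C1 : ℝ := c ^ 2 * |(B0 : ℝ)| * ε * 8 * (4 * B * (1 - ε⁻¹)⁻¹ + |β|) with hC1
  have hC1nn : 0 ≤ C1 := by positivity
  refine ⟨C1 ^ 4 * 16 ^ 3 * ε ^ 18 + 32 * c * ε ^ 5, by positivity, ?_⟩
  intro s ℓ R hℓ hR ⟨σ, hσ, hper⟩
  obtain ⟨D, hDB, hDper, hDd⟩ := per_ext d B hB s ℓ R hℓ σ hσ hper
  obtain ⟨M, hM0, hM2, hMg⟩ := torsion_int hb D B hDB ℓ hℓ σ hσ hDper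
  set p : ℕ := s + R / 2 with hp
  set ρ : ℕ := R / 2 - 1 with hρ
  obtain ⟨P, hP⟩ := hMg p
  obtain ⟨Q, hQ⟩ := hMg (p + 1)
  obtain ⟨m, hm⟩ : ∃ m : ℕ, (m : ℤ) = M := ⟨M.toNat, by omega⟩
  have hm0 : 0 < m := by omega
  obtain ⟨a, b, hab, ha, hb', hdvd⟩ := pigeon m hm0 P Q
  obtain ⟨z, hz⟩ := hdvd
  set A : ℕ := Nat.sqrt m with hA
  have hMr : (0 : ℝ) < M := by exact_mod_cast hM0
  have hmr : (m : ℝ) = M := by
    have : ((m : ℤ) : ℝ) = (M : ℝ) := by rw [hm]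
    simpa using this
  -- integrality
  have hint : (a : ℝ) * gg ε D p + b * gg ε D (p + 1) = z := by
    have h1 : (M : ℝ) * ((a : ℝ) * gg ε D p + b * gg ε D (p + 1)) = M * z := by
      calc (M : ℝ) * ((a : ℝ) * gg ε D p + b * gg ε D (p + 1))
          = a * (M * gg ε D p) + b * (M * gg ε D (p + 1)) := by ring
        _ = a * P + b * Q := by rw [hP, hQ]
        _ = ((a * P + b * Q : ℤ) : ℝ) := by push_cast; ring
        _ = (((m : ℤ) * z : ℤ) : ℝ) := by rw [hz]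
        _ = M * z := by rw [hm]; push_cast; ring
    exact mul_left_cancel₀ hMr.ne' h1
  -- size of A
  have hA2 : (A : ℝ) ^ 2 ≤ M := by
    rw [← hmr]
    exact_mod_cast Nat.sqrt_le' m
  have hA4 : (A : ℝ) ^ 4 ≤ 16 * ε ^ 4 * ε ^ ℓ := by
    calc (A : ℝ) ^ 4 = ((A : ℝ) ^ 2) ^ 2 := by ring
      _ ≤ (M : ℝ) ^ 2 := pow_le_pow_left₀ (by positivity) hA2 2
      _ ≤ _ := hM2
  have haA : |(a : ℝ)| ≤ A := by
    have : ((|a| : ℤ) : ℝ) ≤ ((A : ℤ) : ℝ) := by exact_mod_cast ha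
    simpa using this
  have hbA : |(b : ℝ)| ≤ A := by
    have : ((|b| : ℤ) : ℝ) ≤ ((A : ℤ) : ℝ) := by exact_mod_cast hb'
    simpa using this
  -- nonvanishing
  have hne : a * U t p + b * U t (p + 1) ≠ 0 := by
    intro h0
    have hdiv : U t (p + 1) ∣ a * U t p := ⟨-b, by linarith⟩
    have hdiv2 : U t (p + 1) ∣ a := (U_coprime t p).symm.dvd_of_dvd_mul_right hdiv
    have hUp : ε ^ p ≤ (U t (p + 1) : ℝ) := hb.U_lower p
    have hεp : 0 < ε ^ p := pow_pos hε p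
    have hUpos : (0 : ℤ) < U t (p + 1) := by
      have : (0 : ℝ) < U t (p + 1) := by linarith
      exact_mod_cast this
    by_cases ha0 : a = 0
    · rw [ha0] at h0
      have : b = 0 := by
        rcases mul_eq_zero.mp (by linarith : b * U t (p + 1) = 0) with h | h
        · exact h
        · omega
      rcases hab with h | h
      · exact h ha0
      · exact h this
    · have h1 : U t (p + 1) ≤ |a| := Int.le_of_dvd (abs_pos.mpr ha0) ((dvd_abs _ _).mpr hdiv2)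
      have h2 : (U t (p + 1) : ℝ) ≤ A := by
        have : (U t (p + 1) : ℝ) ≤ ((|a| : ℤ) : ℝ) := by exact_mod_cast h1
        have h3 : ((|a| : ℤ) : ℝ) ≤ A := by push_cast; exact haA
        linarith
      have h3 : (ε ^ p) ^ 4 ≤ 16 * ε ^ 4 * ε ^ ℓ := by
        calc (ε ^ p) ^ 4 ≤ (A : ℝ) ^ 4 := pow_le_pow_left₀ hεp.le (by linarith) 4
          _ ≤ _ := hA4
      have h4 : (16 : ℝ) < ε ^ 4 := by
        have : (2 : ℝ) ^ 4 < ε ^ 4 := pow_lt_pow_left₀ h2ε (by norm_num) (by norm_num)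
        linarith
      have h5 : 16 * ε ^ 4 * ε ^ ℓ < ε ^ (8 + ℓ) := by
        have h6 : 0 < ε ^ 4 * ε ^ ℓ := by positivity
        calc 16 * ε ^ 4 * ε ^ ℓ = 16 * (ε ^ 4 * ε ^ ℓ) := by ring
          _ < ε ^ 4 * (ε ^ 4 * ε ^ ℓ) := mul_lt_mul_of_pos_right h4 h6
          _ = ε ^ (8 + ℓ) := by ring
      have h7 : ε ^ (8 + ℓ) ≤ (ε ^ p) ^ 4 := by
        rw [← pow_mul]
        exact pow_le_pow_right₀ hb.h1.le (by omega)
      linarith
  -- closeness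
  set E : ℝ := 4 * B * (1 - ε⁻¹)⁻¹ * ε⁻¹ ^ ρ with hE
  have hE0 : 0 ≤ E := by positivity
  have hloc : ∀ k : ℤ, (s : ℤ) ≤ k → k < s + R → ext d k = D k := by
    intro k h1 h2
    obtain ⟨n, rfl⟩ : ∃ n : ℕ, (n : ℤ) = k := ⟨k.toNat, by omega⟩
    rw [ext_nat, hDd n (by omega) (by omega)]
  have hc1 : |gg ε (ext d) p - gg ε D p| ≤ E := by
    apply gg_close hb (ext d) D B (ext_bdd d B hB) hDB
    intro k h1 h2
    exact hloc k (by omega) (by omega)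
  have hc2 : |gg ε (ext d) (p + 1) - gg ε D (p + 1)| ≤ E := by
    apply gg_close hb (ext d) D B (ext_bdd d B hB) hDB
    intro k h1 h2
    exact hloc k (by omega) (by omega)
  have hκ : |(a : ℝ) * gg ε (ext d) p + b * gg ε (ext d) (p + 1) - z| ≤ (2 * A) * E := by
    have e1 : (a : ℝ) * gg ε (ext d) p + b * gg ε (ext d) (p + 1) - z
        = a * (gg ε (ext d) p - gg ε D p) + b * (gg ε (ext d) (p + 1) - gg ε D (p + 1)) := by
      rw [← hint]; ring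
    rw [e1]
    calc |(a : ℝ) * (gg ε (ext d) p - gg ε D p) + b * (gg ε (ext d) (p + 1) - gg ε D (p + 1))|
        ≤ |(a : ℝ)| * |gg ε (ext d) p - gg ε D p| + |(b : ℝ)| * |gg ε (ext d) (p + 1) - gg ε D (p + 1)| := by
          rw [← abs_mul, ← abs_mul]; exact abs_add_le _ _
      _ ≤ A * E + A * E := by
          apply add_le_add
          · exact mul_le_mul haA hc1 (abs_nonneg _) (by positivity)
          · exact mul_le_mul hbA hc2 (abs_nonneg _) (by positivity)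
      _ = (2 * A) * E := by ring
  obtain ⟨q, hq0, hqs, hqL⟩ := key hb α β A0 B0 c hc hα d B hB hβ p a b hne (2 * A)
    (by linarith) _ z hκ
  refine ⟨q, hq0, ?_, ?_⟩
  · -- size of q
    have hAle : (A : ℝ) ≤ 16 * ε ^ 4 * ε ^ ℓ := by
      have : (A : ℝ) ≤ (A : ℝ) ^ 4 := by
        have h1 : A ≤ A ^ 4 := Nat.le_self_pow (by norm_num) A
        exact_mod_cast h1
      linarith
    have hεp : 0 < ε ^ (p + 1) := pow_pos hε _
    calc (q : ℝ) ≤ c * (2 * A) * ε ^ (p + 1) := hqs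
      _ ≤ c * (2 * (16 * ε ^ 4 * ε ^ ℓ)) * ε ^ (p + 1) := by
          apply mul_le_mul_of_nonneg_right _ hεp.le
          apply mul_le_mul_of_nonneg_left _ hcr.le
          linarith
      _ = 32 * c * ε ^ 5 * ε ^ (ℓ + p) := by ring
      _ ≤ 32 * c * ε ^ 5 * ε ^ (s + 2 * R) := by
          apply mul_le_mul_of_nonneg_left _ (by positivity)
          exact pow_le_pow_right₀ hb.h1.le (by omega)
      _ ≤ (C1 ^ 4 * 16 ^ 3 * ε ^ 18 + 32 * c * ε ^ 5) * ε ^ (s + 2 * R) := by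
          apply mul_le_mul_of_nonneg_right _ (by positivity)
          have : 0 ≤ C1 ^ 4 * 16 ^ 3 * ε ^ 18 := by positivity
          linarith
  · -- the product
    have hrp : ε⁻¹ ^ p ≤ ε⁻¹ ^ ρ := pow_le_pow_of_le_one hr0.le hr1.le (by omega)
    have hL1 : L α β q ≤ C1 * (A : ℝ) ^ 3 * ε⁻¹ ^ ρ := by
      calc L α β q ≤ c ^ 2 * |(B0 : ℝ)| * ε * (2 * (A : ℝ)) ^ 2 * ((2 * A) * E + (2 * A) * ε⁻¹ ^ p * |β|) := hqL
        _ ≤ c ^ 2 * |(B0 : ℝ)| * ε * (2 * (A : ℝ)) ^ 2 * ((2 * A) * E + (2 * A) * ε⁻¹ ^ ρ * |β|) := by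
            apply mul_le_mul_of_nonneg_left _ (by positivity)
            have h1 : (2 * (A : ℝ)) * ε⁻¹ ^ p * |β| ≤ (2 * A) * ε⁻¹ ^ ρ * |β| := by
              apply mul_le_mul_of_nonneg_right _ (abs_nonneg _)
              exact mul_le_mul_of_nonneg_left hrp (by positivity)
            linarith
        _ = C1 * (A : ℝ) ^ 3 * ε⁻¹ ^ ρ := by rw [hE, hC1]; ring
    have hL0 := L_nonneg α β q
    have hr4 : (ε⁻¹ ^ ρ) ^ 4 ≤ ε ^ 6 * ε⁻¹ ^ (2 * R) := by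
      have h1 : ε⁻¹ ^ (4 * ρ + 6) ≤ ε⁻¹ ^ (2 * R) :=
        pow_le_pow_of_le_one hr0.le hr1.le (by omega)
      have h2 : ε ^ 6 * ε⁻¹ ^ (4 * ρ + 6) = (ε⁻¹ ^ ρ) ^ 4 := by
        calc ε ^ 6 * ε⁻¹ ^ (4 * ρ + 6) = (ε * ε⁻¹) ^ 6 * (ε⁻¹ ^ ρ) ^ 4 := by ring
          _ = _ := by rw [hm1, one_pow, one_mul]
      rw [← h2]
      exact mul_le_mul_of_nonneg_left h1 (by positivity)
    calc (L α β q) ^ 4 ≤ (C1 * (A : ℝ) ^ 3 * ε⁻¹ ^ ρ) ^ 4 := pow_le_pow_left₀ hL0 hL1 4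
      _ = C1 ^ 4 * ((A : ℝ) ^ 4) ^ 3 * (ε⁻¹ ^ ρ) ^ 4 := by ring
      _ ≤ C1 ^ 4 * (16 * ε ^ 4 * ε ^ ℓ) ^ 3 * (ε ^ 6 * ε⁻¹ ^ (2 * R)) := by
          apply mul_le_mul _ hr4 (by positivity) (by positivity)
          apply mul_le_mul_of_nonneg_left _ (by positivity)
          exact pow_le_pow_left₀ (by positivity) hA4 3
      _ = C1 ^ 4 * 16 ^ 3 * ε ^ 18 * ε ^ (3 * ℓ) * ε⁻¹ ^ (2 * R) := by ring
      _ ≤ (C1 ^ 4 * 16 ^ 3 * ε ^ 18 + 32 * c * ε ^ 5) * ε ^ (3 * ℓ) * ε⁻¹ ^ (2 * R) := by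
          apply mul_le_mul_of_nonneg_right _ (by positivity)
          apply mul_le_mul_of_nonneg_right _ (by positivity)
          have : 0 ≤ 32 * (c : ℝ) * ε ^ 5 := by positivity
          linarith

end base

end Pool.H389R2.LC
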