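import Mathlib
import Pool.Agent.H389R2.LC.Block

set_option autoImplicit false

/-!
Repetitions and complexity.
-/

namespace Pool.H389R2.LC

theorem L_mul_zero (α β : ℝ) (q m : ℕ) (hq : 0 < q) (h0 : L α β q = 0) : L α β (m * q) = 0 := by
  have h1 := dist_mul ((q : ℝ) * α) m
  have h2 := dist_mul ((q : ℝ) * β) m
  have hq' : (0 : ℝ) < q := by exact_mod_cast hq
  have e1 : ((m * q : ℕ) : ℝ) * α = (m : ℝ) * ((q : ℝ) * α) := by push_cast; ring
  have e2 : ((m * q : ℕ) : ℝ) * β = (m : ℝ) * ((q : ℝ) * β) := by push_cast; ring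
  unfold L at h0 ⊢
  rw [e1, e2]
  rcases mul_eq_zero.mp h0 with h3 | h3
  · rcases mul_eq_zero.mp h3 with h4 | h4
    · linarith
    · rw [h4, mul_zero] at h1
      have : |(m : ℝ) * ((q : ℝ) * α) - (round ((m : ℝ) * ((q : ℝ) * α)) : ℝ)| = 0 :=
        le_antisymm h1 (abs_nonneg _)
      rw [this, mul_zero, zero_mul]
  · rw [h3, mul_zero] at h2
    have : |(m : ℝ) * ((q : ℝ) * β) - (round ((m : ℝ) * ((q : ℝ) * β)) : ℝ)| = 0 :=
      le_antisymm h2 (abs_nonneg _)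
    rw [this, mul_zero]

/-- general passage to large `q` -/
theorem exists_large (α β : ℝ) (P : ℕ → Prop) (hz : ∀ q, 0 < q → L α β q = 0 → P q)
    (h : ∀ θ : ℝ, 0 < θ → ∃ q : ℕ, 0 < q ∧ L α β q < θ ∧ P q) :
    ∀ N : ℕ, ∃ q : ℕ, N ≤ q ∧ 0 < q ∧ P q := by
  intro N
  by_cases hzz : ∃ q : ℕ, 0 < q ∧ L α β q = 0
  · obtain ⟨q, hq, h0⟩ := hzz
    have hpos : 0 < (N + 1) * q := Nat.mul_pos (Nat.succ_pos _) hq
    exact ⟨(N + 1) * q, by nlinarith, hpos, hz _ hpos (L_mul_zero α β q (N + 1) hq h0)⟩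
  · push Not at hzz
    have hmin : ∃ μ : ℝ, 0 < μ ∧ ∀ q : ℕ, 0 < q → q < N → μ ≤ L α β q := by
      induction N with
      | zero => exact ⟨1, one_pos, by intro q _ h2; omega⟩
      | succ n ih =>
        obtain ⟨μ, hμ, hh⟩ := ih
        rcases Nat.eq_zero_or_pos n with hn | hn
        · exact ⟨1, one_pos, by intro q _ h2; omega⟩
        · refine ⟨min μ (L α β n), lt_min hμ (lt_of_le_of_ne (L_nonneg α β n) (Ne.symm (hzz n hn))), ?_⟩
          intro q hq hqn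
          rcases Nat.lt_succ_iff_lt_or_eq.mp hqn with h1 | h1
          · exact le_trans (min_le_left _ _) (hh q hq h1)
          · subst h1; exact min_le_right _ _
    obtain ⟨μ, hμ, hh⟩ := hmin
    obtain ⟨q, hq, hL, hP⟩ := h μ hμ
    refine ⟨q, ?_, hq, hP⟩
    by_contra hcon
    push Not at hcon
    have := hh q hq hcon
    linarith

/-- the set `{w, -w}` for the block `w` of length `n` of `d` starting at `i` -/
def blk (d : ℕ → ℤ) (n i : ℕ) : Set (Fin n → ℤ) :=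
  {(fun k : Fin n => d (i + k)), (fun k : Fin n => - d (i + k))}

/-- the number of blocks of length `n` of `d`, a block and its negative being identified -/
noncomputable def pm (d : ℕ → ℤ) (n : ℕ) : ℕ := (Set.range (blk d n)).ncard

theorem blk_range_finite (d : ℕ → ℤ) (B : ℝ) (hB : ∀ k, |(d k : ℝ)| ≤ B) (n : ℕ) :
    (Set.range (blk d n)).Finite := by
  obtain ⟨b, hb⟩ : ∃ b : ℕ, B ≤ b := exists_nat_ge B
  have hd : ∀ k, d k ∈ Finset.Icc (-(b : ℤ)) b := by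
    intro k
    rw [Finset.mem_Icc, ← abs_le]
    have : ((|d k| : ℤ) : ℝ) ≤ ((b : ℤ) : ℝ) := by
      push_cast
      exact le_trans (hB k) hb
    exact_mod_cast this
  have hfin : (Set.univ.pi (fun _ : Fin n => ((Finset.Icc (-(b : ℤ)) b : Finset ℤ) : Set ℤ))).Finite :=
    Set.Finite.pi (fun _ => Finset.finite_toSet _)
  have hW : (Set.range (fun i : ℕ => (fun k : Fin n => d (i + k)))).Finite := by
    apply hfin.subset
    rintro w ⟨i, rfl⟩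
    intro k _
    exact hd _
  have himg : Set.range (blk d n)
      = (fun w : Fin n → ℤ => ({w, fun k => - w k} : Set (Fin n → ℤ))) ''
        (Set.range (fun i : ℕ => (fun k : Fin n => d (i + k)))) := by
    ext S
    constructor
    · rintro ⟨i, rfl⟩
      exact ⟨_, ⟨i, rfl⟩, rfl⟩
    · rintro ⟨w, ⟨i, rfl⟩, rfl⟩
      exact ⟨i, rfl⟩
  rw [himg]
  exact hW.image _

/-- pigeonhole: two of the first `pm d n + 1` blocks of length `n` agree up to sign -/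
theorem exists_rep (d : ℕ → ℤ) (B : ℝ) (hB : ∀ k, |(d k : ℝ)| ≤ B) (n : ℕ) :
    ∃ s ℓ : ℕ, 0 < ℓ ∧ s + ℓ ≤ pm d n ∧
      ∃ σ : ℤ, (σ = 1 ∨ σ = -1) ∧ ∀ k, s ≤ k → k < s + n → d (k + ℓ) = σ * d k := by
  have hfin := blk_range_finite d B hB n
  have hcard : hfin.toFinset.card < (Finset.range (pm d n + 1)).card := by
    rw [Finset.card_range, ← Set.ncard_eq_toFinset_card _ hfin]
    exact Nat.lt_succ_self _
  obtain ⟨x, hx, y, hy, hne, hxy⟩ := Finset.exists_ne_map_eq_of_card_lt_of_maps_to hcard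
    (f := blk d n) (by
      intro i _
      have : blk d n i ∈ hfin.toFinset := by
        rw [Set.Finite.mem_toFinset]
        exact ⟨i, rfl⟩
      exact this)
  rw [Finset.mem_range] at hx hy
  -- wlog x < y
  have main : ∀ x y : ℕ, x < y → y < pm d n + 1 → blk d n x = blk d n y →
      ∃ s ℓ : ℕ, 0 < ℓ ∧ s + ℓ ≤ pm d n ∧
      ∃ σ : ℤ, (σ = 1 ∨ σ = -1) ∧ ∀ k, s ≤ k → k < s + n → d (k + ℓ) = σ * d k := by
    intro x y hxy hy heq
    refine ⟨x, y - x, by omega, by omega, ?_⟩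
    have hmem : (fun k : Fin n => d (y + k)) ∈ blk d n x := by
      rw [heq]
      exact Or.inl rfl
    rcases hmem with h | h
    · refine ⟨1, Or.inl rfl, ?_⟩
      intro k h1 h2
      have := congrFun h ⟨k - x, by omega⟩
      simp only at this
      rw [show y + (k - x) = k + (y - x) by omega, show x + (k - x) = k by omega] at this
      rw [this, one_mul]
    · refine ⟨-1, Or.inr rfl, ?_⟩
      have h' : (fun k : Fin n => d (y + k)) = fun k : Fin n => - d (x + k) := h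
      intro k h1 h2
      have := congrFun h' ⟨k - x, by omega⟩
      simp only at this
      rw [show y + (k - x) = k + (y - x) by omega, show x + (k - x) = k by omega] at this
      rw [this, neg_one_mul]
  rcases Nat.lt_or_gt_of_ne hne with h | h
  · exact main x y h hy hxy
  · exact main y x h hx hxy.symm

section base
variable {t : ℤ} {ε : ℝ} (hb : Base t ε)
include hb

/-- if blocks of length `n` reappear (up to sign) at distance `ℓ ≤ 2n - K`, `K` arbitrary,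
then Littlewood's conjecture holds -/
theorem rep_LC (α β : ℝ) (A0 B0 : ℤ) (c : ℕ) (hc : 0 < c) (hα : (c : ℝ) * α = A0 + B0 * ε)
    (d : ℕ → ℤ) (B : ℝ) (hB : ∀ k, |(d k : ℝ)| ≤ B)
    (hβ : β = ∑' k : ℕ, (d k : ℝ) * ε⁻¹ ^ k)
    (hrep : ∀ K : ℕ, ∃ s ℓ n : ℕ, 0 < ℓ ∧ ℓ + K ≤ 2 * n ∧
      ∃ σ : ℤ, (σ = 1 ∨ σ = -1) ∧ ∀ k, s ≤ k → k < s + n → d (k + ℓ) = σ * d k) :
    ∀ η : ℝ, 0 < η → ∀ N : ℕ, ∃ q : ℕ, N ≤ q ∧ 0 < q ∧ L α β q < η := by
  apply liminf_of_inf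
  intro η hη
  obtain ⟨C, hC0, hC⟩ := block hb α β A0 B0 c hc hα d B hB hβ
  obtain ⟨K, hK⟩ := exists_pow_small hb.rpos hb.rlt C (η ^ 4) (by positivity)
  obtain ⟨s, ℓ, n, hℓ, hn, σ, hσ, hper⟩ := hrep (K + 10)
  obtain ⟨q, hq0, -, hqL⟩ := hC s ℓ (n + ℓ) hℓ (by omega) ⟨σ, hσ, by
    intro k h1 h2
    exact hper k h1 (by omega)⟩
  refine ⟨q, hq0, ?_⟩
  have hm1 := hb.mul
  have hr0 := hb.rpos
  have hr1 := hb.rlt
  have h1 : ε ^ (3 * ℓ) * ε⁻¹ ^ (2 * (n + ℓ)) ≤ ε⁻¹ ^ K := by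
    have h2 : ε⁻¹ ^ (2 * (n + ℓ)) ≤ ε⁻¹ ^ (3 * ℓ + K) :=
      pow_le_pow_of_le_one hr0.le hr1.le (by omega)
    calc ε ^ (3 * ℓ) * ε⁻¹ ^ (2 * (n + ℓ)) ≤ ε ^ (3 * ℓ) * ε⁻¹ ^ (3 * ℓ + K) :=
          mul_le_mul_of_nonneg_left h2 (pow_pos hb.pos _).le
      _ = (ε * ε⁻¹) ^ (3 * ℓ) * ε⁻¹ ^ K := by rw [mul_pow, pow_add]; ring
      _ = ε⁻¹ ^ K := by rw [hm1, one_pow, one_mul]
  have h3 : (L α β q) ^ 4 < η ^ 4 := by
    calc (L α β q) ^ 4 ≤ C * ε ^ (3 * ℓ) * ε⁻¹ ^ (2 * (n + ℓ)) := hqL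
      _ = C * (ε ^ (3 * ℓ) * ε⁻¹ ^ (2 * (n + ℓ))) := by ring
      _ ≤ C * ε⁻¹ ^ K := mul_le_mul_of_nonneg_left h1 hC0.le
      _ < η ^ 4 := hK
  exact lt_of_pow_lt_pow_left₀ 4 hη.le h3

/-- complexity below `2n` by an unbounded amount -/
theorem complexity_LC (α β : ℝ) (A0 B0 : ℤ) (c : ℕ) (hc : 0 < c)
    (hα : (c : ℝ) * α = A0 + B0 * ε)
    (d : ℕ → ℤ) (B : ℝ) (hB : ∀ k, |(d k : ℝ)| ≤ B)
    (hβ : β = ∑' k : ℕ, (d k : ℝ) * ε⁻¹ ^ k)
    (hcx : ∀ K : ℕ, ∃ n : ℕ, pm d n + K ≤ 2 * n) :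
    ∀ η : ℝ, 0 < η → ∀ N : ℕ, ∃ q : ℕ, N ≤ q ∧ 0 < q ∧ L α β q < η := by
  apply rep_LC hb α β A0 B0 c hc hα d B hB hβ
  intro K
  obtain ⟨n, hn⟩ := hcx K
  obtain ⟨s, ℓ, hℓ, hsl, σ, hσ, hper⟩ := exists_rep d B hB n
  exact ⟨s, ℓ, n, hℓ, by omega, σ, hσ, hper⟩

/-- the quantitative version: repetitions near the beginning give a power saving -/
theorem rep_rate (α β : ℝ) (A0 B0 : ℤ) (c : ℕ) (hc : 0 < c) (hα : (c : ℝ) * α = A0 + B0 * ε)
    (d : ℕ → ℤ) (B : ℝ) (hB : ∀ k, |(d k : ℝ)| ≤ B)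
    (hβ : β = ∑' k : ℕ, (d k : ℝ) * ε⁻¹ ^ k) (κ : ℝ) (hκ : 0 < κ)
    (hrep : ∀ K : ℕ, ∃ s ℓ n : ℕ, 0 < ℓ ∧ K ≤ n ∧ (ℓ : ℝ) + κ * (s + n) ≤ 2 * n ∧
      ∃ σ : ℤ, (σ = 1 ∨ σ = -1) ∧ ∀ k, s ≤ k → k < s + n → d (k + ℓ) = σ * d k) :
    ∃ η : ℝ, 0 < η ∧ ∀ N : ℕ, ∃ q : ℕ, N ≤ q ∧ 0 < q ∧ (q : ℝ) ^ η * L α β q < 1 := by
  obtain ⟨C, hC0, hC⟩ := block hb α β A0 B0 c hc hα d B hB hβ
  have hε := hb.pos
  have hr0 := hb.rpos
  -- exponent
  refine ⟨κ / 48, by positivity, ?_⟩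
  set η : ℝ := κ / 48 with hη
  apply exists_large
  · intro q _ h0
    rw [h0, mul_zero]; exact one_pos
  · intro θ hθ
    set C' : ℝ := max C 1 with hC'
    have hC'1 : 1 ≤ C' := le_max_right _ _
    have hC'0 : 0 < C' := by linarith
    have hCC' : C ≤ C' := le_max_left _ _
    -- choose K so that  C' ^ (1+4η) ε^(-κ K /2) < min (θ^4) 1
    have hx1 : ε⁻¹ ^ (κ / 2) < 1 := Real.rpow_lt_one hr0.le hb.rlt (by positivity)
    have hx0 : 0 < ε⁻¹ ^ (κ / 2) := Real.rpow_pos_of_pos hr0 _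
    obtain ⟨K0, hK0⟩ := exists_pow_small hx0 hx1 (C' ^ (1 + 4 * η)) (min (θ ^ 4) 1) (by positivity)
    obtain ⟨K1, hK1⟩ := exists_nat_ge (10 / κ)
    obtain ⟨s, ℓ, n, hℓ, hKn, hn, σ, hσ, hper⟩ := hrep (K0 + K1)
    have hsn : (K0 : ℝ) + K1 ≤ (s : ℝ) + n := by
      have : ((K0 + K1 : ℕ) : ℝ) ≤ n := by exact_mod_cast hKn
      push_cast at this
      have h2 : (0 : ℝ) ≤ s := Nat.cast_nonneg s
      linarith
    have hK0n : (0 : ℝ) ≤ K0 := Nat.cast_nonneg K0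
    have hK1n : (0 : ℝ) ≤ K1 := Nat.cast_nonneg K1
    have h10 : (10 : ℝ) ≤ κ * (s + n) := by
      have : 10 = κ * (10 / κ) := by field_simp
      rw [this]
      apply mul_le_mul_of_nonneg_left _ hκ.le
      linarith
    have hℓ10 : ℓ + 10 ≤ 2 * n := by
      have : (ℓ : ℝ) + 10 ≤ 2 * n := by linarith
      exact_mod_cast this
    obtain ⟨q, hq0, hqs, hqL⟩ := hC s ℓ (n + ℓ) hℓ (by omega) ⟨σ, hσ, by
      intro k h1 h2
      exact hper k h1 (by omega)⟩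
    have hq0r : (0 : ℝ) < q := by exact_mod_cast hq0
    have hL0 := L_nonneg α β q
    set T : ℝ := (s : ℝ) + n with hT
    -- size of q
    have hqs' : (q : ℝ) ≤ C' * ε ^ (6 * T) := by
      calc (q : ℝ) ≤ C * ε ^ (s + 2 * (n + ℓ)) := hqs
        _ ≤ C' * ε ^ (s + 2 * (n + ℓ)) := mul_le_mul_of_nonneg_right hCC' (pow_pos hε _).le
        _ ≤ C' * ε ^ (6 * T) := by
            apply mul_le_mul_of_nonneg_left _ hC'0.le
            rw [← Real.rpow_natCast]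
            apply Real.rpow_le_rpow_of_exponent_le hb.h1.le
            push_cast
            have h3 : (ℓ : ℝ) ≤ 2 * n := by
              have : (ℓ : ℝ) + 10 ≤ 2 * n := by exact_mod_cast hℓ10
              linarith
            have h4 : (0 : ℝ) ≤ s := Nat.cast_nonneg s
            rw [hT]
            linarith
    -- size of L^4
    have hL4 : (L α β q) ^ 4 ≤ C' * ε⁻¹ ^ (κ * T) := by
      calc (L α β q) ^ 4 ≤ C * ε ^ (3 * ℓ) * ε⁻¹ ^ (2 * (n + ℓ)) := hqL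
        _ = C * (ε ^ (3 * ℓ) * ε⁻¹ ^ (2 * (n + ℓ))) := by ring
        _ ≤ C' * (ε ^ (3 * ℓ) * ε⁻¹ ^ (2 * (n + ℓ))) :=
            mul_le_mul_of_nonneg_right hCC' (mul_pos (pow_pos hε _) (pow_pos hr0 _)).le
        _ ≤ C' * ε⁻¹ ^ (κ * T) := by
            apply mul_le_mul_of_nonneg_left _ hC'0.le
            rw [← Real.rpow_natCast, ← Real.rpow_natCast, Real.inv_rpow hε.le, Real.inv_rpow hε.le,
              ← Real.rpow_neg hε.le, ← Real.rpow_neg hε.le, ← Real.rpow_add hε]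
            apply Real.rpow_le_rpow_of_exponent_le hb.h1.le
            push_cast
            linarith
    have hTK : (K0 : ℝ) ≤ T := by linarith
    have hdecay : C' ^ (1 + 4 * η) * ε⁻¹ ^ (κ * T / 2) < min (θ ^ 4) 1 := by
      have h5 : ε⁻¹ ^ (κ * T / 2) ≤ (ε⁻¹ ^ (κ / 2)) ^ K0 := by
        rw [← Real.rpow_natCast, ← Real.rpow_mul hr0.le]
        apply Real.rpow_le_rpow_of_exponent_ge hr0 hb.rlt.le
        have : κ / 2 * K0 ≤ κ / 2 * T := mul_le_mul_of_nonneg_left hTK (by positivity)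
        linarith
      calc C' ^ (1 + 4 * η) * ε⁻¹ ^ (κ * T / 2) ≤ C' ^ (1 + 4 * η) * (ε⁻¹ ^ (κ / 2)) ^ K0 :=
            mul_le_mul_of_nonneg_left h5 (Real.rpow_pos_of_pos hC'0 _).le
        _ < _ := hK0
    have hη0 : 0 < η := by positivity
    have hT0 : 0 ≤ T := by positivity
    refine ⟨q, hq0, ?_, ?_⟩
    · -- L < θ
      have h6 : (L α β q) ^ 4 < θ ^ 4 := by
        calc (L α β q) ^ 4 ≤ C' * ε⁻¹ ^ (κ * T) := hL4
          _ ≤ C' ^ (1 + 4 * η) * ε⁻¹ ^ (κ * T / 2) := by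
              apply mul_le_mul _ _ (Real.rpow_pos_of_pos hr0 _).le
                (Real.rpow_pos_of_pos hC'0 _).le
              · calc C' = C' ^ (1 : ℝ) := (Real.rpow_one _).symm
                  _ ≤ C' ^ (1 + 4 * η) :=
                    Real.rpow_le_rpow_of_exponent_le hC'1 (by linarith)
              · apply Real.rpow_le_rpow_of_exponent_ge hr0 hb.rlt.le
                have : 0 ≤ κ * T := by positivity
                linarith
          _ < min (θ ^ 4) 1 := hdecay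
          _ ≤ θ ^ 4 := min_le_left _ _
      exact lt_of_pow_lt_pow_left₀ 4 hθ.le h6
    · have h7 : ((q : ℝ) ^ η * L α β q) ^ 4 < 1 ^ 4 := by
        rw [mul_pow, one_pow]
        have h8 : ((q : ℝ) ^ η) ^ 4 ≤ C' ^ (4 * η) * ε ^ (κ * T / 2) := by
          have h9 : ((q : ℝ) ^ η) ^ 4 = (q : ℝ) ^ (4 * η) := by
            rw [← Real.rpow_natCast, ← Real.rpow_mul hq0r.le]
            congr 1
            push_cast; ring
          rw [h9]
          calc (q : ℝ) ^ (4 * η) ≤ (C' * ε ^ (6 * T)) ^ (4 * η) :=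
                Real.rpow_le_rpow hq0r.le hqs' (by positivity)
            _ = C' ^ (4 * η) * (ε ^ (6 * T)) ^ (4 * η) :=
                Real.mul_rpow hC'0.le (Real.rpow_pos_of_pos hε _).le
            _ = C' ^ (4 * η) * ε ^ (κ * T / 2) := by
                rw [← Real.rpow_mul hε.le]
                congr 2
                rw [hη]; ring
        calc ((q : ℝ) ^ η) ^ 4 * (L α β q) ^ 4
            ≤ (C' ^ (4 * η) * ε ^ (κ * T / 2)) * (C' * ε⁻¹ ^ (κ * T)) :=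
              mul_le_mul h8 hL4 (by positivity) (mul_pos (Real.rpow_pos_of_pos hC'0 _)
                (Real.rpow_pos_of_pos hε _)).le
          _ = C' ^ (1 + 4 * η) * ε⁻¹ ^ (κ * T / 2) := by
              rw [Real.rpow_add hC'0, Real.rpow_one, Real.inv_rpow hε.le, Real.inv_rpow hε.le,
                ← Real.rpow_neg hε.le, ← Real.rpow_neg hε.le]
              have : ε ^ (κ * T / 2) * ε ^ (-(κ * T)) = ε ^ (-(κ * T / 2)) := by
                rw [← Real.rpow_add hε]; congr 1; ring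
              calc C' ^ (4 * η) * ε ^ (κ * T / 2) * (C' * ε ^ (-(κ * T)))
                  = C' * C' ^ (4 * η) * (ε ^ (κ * T / 2) * ε ^ (-(κ * T))) := by ring
                _ = C' * C' ^ (4 * η) * ε ^ (-(κ * T / 2)) := by rw [this]
          _ < min (θ ^ 4) 1 := hdecay
          _ ≤ 1 := min_le_right _ _
      exact lt_of_pow_lt_pow_left₀ 4 zero_le_one h7

/-- complexity `liminf p(n)/n < 2` gives a power saving -/
theorem complexity_rate (α β : ℝ) (A0 B0 : ℤ) (c : ℕ) (hc : 0 < c)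
    (hα : (c : ℝ) * α = A0 + B0 * ε)
    (d : ℕ → ℤ) (B : ℝ) (hB : ∀ k, |(d k : ℝ)| ≤ B)
    (hβ : β = ∑' k : ℕ, (d k : ℝ) * ε⁻¹ ^ k) (γ : ℝ) (hγ : γ < 2)
    (hcx : ∀ K : ℕ, ∃ n : ℕ, K ≤ n ∧ (pm d n : ℝ) ≤ γ * n) :
    ∃ η : ℝ, 0 < η ∧ ∀ N : ℕ, ∃ q : ℕ, N ≤ q ∧ 0 < q ∧ (q : ℝ) ^ η * L α β q < 1 := by
  apply rep_rate hb α β A0 B0 c hc hα d B hB hβ ((2 - γ) / 3) (by linarith)
  intro K
  obtain ⟨n, hKn, hn⟩ := hcx K
  obtain ⟨s, ℓ, hℓ, hsl, σ, hσ, hper⟩ := exists_rep d B hB n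
  refine ⟨s, ℓ, n, hℓ, hKn, ?_, σ, hσ, hper⟩
  have h1 : (s : ℝ) + ℓ ≤ pm d n := by exact_mod_cast hsl
  have h2 : (0 : ℝ) ≤ ℓ := Nat.cast_nonneg ℓ
  have h3 : (0 : ℝ) ≤ s := Nat.cast_nonneg s
  have h4 : (0 : ℝ) ≤ n := Nat.cast_nonneg n
  have h5 : (s : ℝ) ≤ 2 * n := by nlinarith
  nlinarith

end base

end Pool.H389R2.LC
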