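import Mathlib
import Pool.Agent.H389R2.LC.Rep

set_option autoImplicit false

/-!
A sequence all of whose repetitions have exponent at most `3/2` has complexity at least `3n - O(1)`.
-/

namespace Pool.H389R2.LC

/-- `d[j..j+m) = σ d[i..i+m)` -/
def Mt (d : ℕ → ℤ) (σ : ℤ) (i j m : ℕ) : Prop := ∀ x, x < m → d (j + x) = σ * d (i + x)

theorem Mt.mono {d : ℕ → ℤ} {σ : ℤ} {i j m m' : ℕ} (h : Mt d σ i j m) (hm : m' ≤ m) :
    Mt d σ i j m' := fun x hx => h x (lt_of_lt_of_le hx hm)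

theorem blk_eq {d : ℕ → ℤ} {n x y : ℕ} (heq : blk d n x = blk d n y) :
    ∃ σ : ℤ, (σ = 1 ∨ σ = -1) ∧ Mt d σ x y n := by
  have hmem : (fun k : Fin n => d (y + k)) ∈ blk d n x := by
    rw [heq]
    exact Or.inl rfl
  rcases hmem with h | h
  · refine ⟨1, Or.inl rfl, ?_⟩
    intro k h1
    have := congrFun h ⟨k, h1⟩
    simp only at this
    rw [this, one_mul]
  · refine ⟨-1, Or.inr rfl, ?_⟩
    have h' : (fun k : Fin n => d (y + k)) = fun k : Fin n => - d (x + k) := h
    intro k h1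
    have := congrFun h' ⟨k, h1⟩
    simp only at this
    rw [this, neg_one_mul]

/-- positions at which the block of length `n` has occurred before (up to sign) -/
def Tset (d : ℕ → ℤ) (n j : ℕ) : Prop := ∃ i : ℕ, ∃ σ : ℤ, (σ = 1 ∨ σ = -1) ∧ i < j ∧ Mt d σ i j n

theorem card_le_pm (d : ℕ → ℤ) (B : ℝ) (hB : ∀ k, |(d k : ℝ)| ≤ B) (n : ℕ) (X : Finset ℕ)
    (hX : ∀ j ∈ X, ¬ Tset d n j) : X.card ≤ pm d n := by
  have hfin := blk_range_finite d B hB n
  have hinj : Set.InjOn (blk d n) (X : Set ℕ) := by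
    intro a ha b hb hab
    by_contra hne
    rcases Nat.lt_or_gt_of_ne hne with h | h
    · obtain ⟨σ, hσ, hm⟩ := blk_eq hab
      exact hX b hb ⟨a, σ, hσ, h, hm⟩
    · obtain ⟨σ, hσ, hm⟩ := blk_eq hab.symm
      exact hX a ha ⟨b, σ, hσ, h, hm⟩
  have h1 : ((blk d n) '' (X : Set ℕ)).ncard = X.card := by
    rw [hinj.ncard_image, Set.ncard_coe_finset]
  rw [← h1]
  exact Set.ncard_le_ncard (Set.image_subset_range _ _) hfin

theorem sign_mul {σ τ : ℤ} (hσ : σ = 1 ∨ σ = -1) (hτ : τ = 1 ∨ τ = -1) :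
    σ * τ = 1 ∨ σ * τ = -1 := by
  rcases hσ with rfl | rfl <;> rcases hτ with rfl | rfl <;> simp

theorem sign_sq {σ : ℤ} (hσ : σ = 1 ∨ σ = -1) : σ * σ = 1 := by
  rcases hσ with rfl | rfl <;> simp

/-- the combinatorial lower bound -/
theorem pm_lower (d : ℕ → ℤ) (B : ℝ) (hB : ∀ k, |(d k : ℝ)| ≤ B) (n K : ℕ) (hn : K + 10 ≤ n)
    (hQ : ∀ i j m : ℕ, ∀ σ : ℤ, (σ = 1 ∨ σ = -1) → i < j → j + m ≤ 10 * n → Mt d σ i j m →
      2 * m < (j - i) + K) : 3 * n ≤ pm d n + 3 * K + 10 := by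
  classical
  by_cases hT : ∃ j, j < 3 * n ∧ Tset d n j
  swap
  · -- no repetition before 3n
    push Not at hT
    have := card_le_pm d B hB n (Finset.range (3 * n)) (by
      intro j hj
      exact hT j (Finset.mem_range.mp hj))
    rw [Finset.card_range] at this
    omega
  have hT' : ∃ j, Tset d n j := by
    obtain ⟨j, _, h⟩ := hT
    exact ⟨j, h⟩
  set j0 := Nat.find hT' with hj0
  have hj0T : Tset d n j0 := Nat.find_spec hT'
  have hj0min : ∀ j, j < j0 → ¬ Tset d n j := fun j hj => Nat.find_min hT' hj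
  have hj03 : j0 < 3 * n := by
    obtain ⟨j, h1, h2⟩ := hT
    exact lt_of_le_of_lt (Nat.find_min' hT' h2) h1
  obtain ⟨i0, σ0, hσ0, hi0, hm0n⟩ := hj0T
  -- maximal match
  have hfail : ∃ m, ¬ Mt d σ0 i0 j0 m := by
    refine ⟨3 * n, fun h => ?_⟩
    have := hQ i0 j0 (3 * n) σ0 hσ0 hi0 (by omega) h
    omega
  set f := Nat.find hfail with hf
  have hf1 : ¬ Mt d σ0 i0 j0 f := Nat.find_spec hfail
  have hf2 : ∀ m, m < f → Mt d σ0 i0 j0 m := by
    intro m hm
    have := Nat.find_min hfail hm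
    push Not at this
    exact this
  have hnf : n < f := by
    by_contra hcon
    push Not at hcon
    exact hf1 (hm0n.mono hcon)
  obtain ⟨m0, hm0⟩ : ∃ m0, f = m0 + 1 := ⟨f - 1, by omega⟩
  have hP0 : Mt d σ0 i0 j0 m0 := hf2 m0 (by omega)
  have hmis : d (j0 + m0) ≠ σ0 * d (i0 + m0) := by
    intro heq
    apply hf1
    rw [hm0]
    intro x hx
    rcases Nat.lt_succ_iff_lt_or_eq.mp hx with h | h
    · exact hP0 x h
    · rw [h]; exact heq
  have hnm0 : n ≤ m0 := by omega
  have hm03 : m0 < 3 * n := by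
    by_contra hcon
    push Not at hcon
    have := hQ i0 j0 (3 * n) σ0 hσ0 hi0 (by omega) (hP0.mono hcon)
    omega
  have hQ0 := hQ i0 j0 m0 σ0 hσ0 hi0 (by omega) hP0
  -- end of the first run
  set e := j0 + m0 - n + 1 with he
  have hee : e + n = j0 + m0 + 1 := by omega
  by_cases hT1 : ∃ j, e ≤ j ∧ j < e + n ∧ Tset d n j
  swap
  · push Not at hT1
    have h1 := card_le_pm d B hB n (Finset.range j0 ∪ Finset.Ico e (e + n)) (by
      intro j hj
      rcases Finset.mem_union.mp hj with h | h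
      · exact hj0min j (Finset.mem_range.mp h)
      · rw [Finset.mem_Ico] at h
        exact hT1 j h.1 h.2)
    have hdisj : Disjoint (Finset.range j0) (Finset.Ico e (e + n)) := by
      rw [Finset.disjoint_left]
      intro x hx hx2
      rw [Finset.mem_range] at hx
      rw [Finset.mem_Ico] at hx2
      omega
    rw [Finset.card_union_of_disjoint hdisj, Finset.card_range, Nat.card_Ico] at h1
    omega
  have hT1' : ∃ j, e ≤ j ∧ Tset d n j := by
    obtain ⟨j, h1, _, h3⟩ := hT1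
    exact ⟨j, h1, h3⟩
  set j1 := Nat.find hT1' with hj1
  have hj1s : e ≤ j1 ∧ Tset d n j1 := Nat.find_spec hT1'
  have hj1min : ∀ j, e ≤ j → j < j1 → ¬ Tset d n j := by
    intro j h1 h2 h3
    exact Nat.find_min hT1' h2 ⟨h1, h3⟩
  have hj1e : j1 < e + n := by
    obtain ⟨j, h1, h2, h3⟩ := hT1
    exact lt_of_le_of_lt (Nat.find_min' hT1' ⟨h1, h3⟩) h2
  -- count
  have hcount : j0 + (j1 - e) ≤ pm d n := by
    have h1 := card_le_pm d B hB n (Finset.range j0 ∪ Finset.Ico e j1) (by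
      intro j hj
      rcases Finset.mem_union.mp hj with h | h
      · exact hj0min j (Finset.mem_range.mp h)
      · rw [Finset.mem_Ico] at h
        exact hj1min j h.1 h.2)
    have hdisj : Disjoint (Finset.range j0) (Finset.Ico e j1) := by
      rw [Finset.disjoint_left]
      intro x hx hx2
      rw [Finset.mem_range] at hx
      rw [Finset.mem_Ico] at hx2
      omega
    rw [Finset.card_union_of_disjoint hdisj, Finset.card_range, Nat.card_Ico] at h1
    exact h1
  obtain ⟨hej1, i1, σ1, hσ1, hi1, hm1⟩ := hj1s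
  have hQ1 := hQ i1 j1 n σ1 hσ1 hi1 (by omega) hm1
  have hs := sign_mul hσ0 hσ1
  have hsq0 := sign_sq hσ0
  have hsq1 := sign_sq hσ1
  -- lengths
  obtain ⟨ℓ0, hℓ0⟩ : ∃ ℓ0, j0 = i0 + ℓ0 := ⟨j0 - i0, by omega⟩
  obtain ⟨ℓ1, hℓ1⟩ : ∃ ℓ1, j1 = i1 + ℓ1 := ⟨j1 - i1, by omega⟩
  rcases Nat.lt_trichotomy ℓ1 ℓ0 with hlt | heq | hgt
  · -- ℓ1 < ℓ0
    have hM : Mt d (σ0 * σ1) (j1 - ℓ0) i1 (j0 + m0 - j1) := by
      intro x hx
      have h1 := hP0 (j1 - j0 + x) (by omega)
      have h2 := hm1 x (by omega)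
      rw [show j0 + (j1 - j0 + x) = j1 + x by omega,
        show i0 + (j1 - j0 + x) = j1 - ℓ0 + x by omega] at h1
      calc d (i1 + x) = (σ1 * σ1) * d (i1 + x) := by rw [hsq1, one_mul]
        _ = σ1 * (σ1 * d (i1 + x)) := by ring
        _ = σ1 * (σ0 * d (j1 - ℓ0 + x)) := by rw [← h2, h1]
        _ = σ0 * σ1 * d (j1 - ℓ0 + x) := by ring
    have h3 := hQ _ _ _ _ hs (by omega) (by omega) hM
    omega
  · -- ℓ1 = ℓ0
    by_cases hσσ : σ1 = σ0
    · exfalso
      have h2 := hm1 (j0 + m0 - j1) (by omega)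
      rw [show j1 + (j0 + m0 - j1) = j0 + m0 by omega,
        show i1 + (j0 + m0 - j1) = i0 + m0 by omega, hσσ] at h2
      exact hmis h2
    · have hzero : ∀ x, x < j0 + m0 - j1 → d (i1 + x) = 0 := by
        intro x hx
        have h1 := hP0 (j1 - j0 + x) (by omega)
        have h2 := hm1 x (by omega)
        rw [show j0 + (j1 - j0 + x) = j1 + x by omega,
          show i0 + (j1 - j0 + x) = i1 + x by omega] at h1
        rw [h1] at h2
        rcases hσ0 with h | h <;> rcases hσ1 with h' | h'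
        · exact absurd (h'.trans h.symm) hσσ
        · rw [h, h'] at h2; omega
        · rw [h, h'] at h2; omega
        · exact absurd (h'.trans h.symm) hσσ
      have hM : Mt d 1 i1 (i1 + 1) (j0 + m0 - j1 - 1) := by
        intro x hx
        rw [show i1 + 1 + x = i1 + (x + 1) by omega, hzero x (by omega), hzero (x + 1) (by omega)]
        simp
      have h3 := hQ _ _ _ _ (Or.inl rfl) (by omega) (by omega) hM
      omega
  · -- ℓ1 > ℓ0
    have hM : Mt d (σ0 * σ1) i1 (j1 - ℓ0) (j0 + m0 - j1) := by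
      intro x hx
      have h1 := hP0 (j1 - j0 + x) (by omega)
      have h2 := hm1 x (by omega)
      rw [show j0 + (j1 - j0 + x) = j1 + x by omega,
        show i0 + (j1 - j0 + x) = j1 - ℓ0 + x by omega] at h1
      calc d (j1 - ℓ0 + x) = (σ0 * σ0) * d (j1 - ℓ0 + x) := by rw [hsq0, one_mul]
        _ = σ0 * (σ0 * d (j1 - ℓ0 + x)) := by ring
        _ = σ0 * (σ1 * d (i1 + x)) := by rw [← h1, h2]
        _ = σ0 * σ1 * d (i1 + x) := by ring
    have h3 := hQ _ _ _ _ hs (by omega) (by omega) hM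
    rcases Nat.lt_or_ge i1 i0 with hi | hi
    · -- source before
      have hM2 : Mt d (σ0 * σ1) j0 (j1 + (i0 - i1)) (i1 + n - i0) := by
        intro x hx
        have h1 := hP0 x (by omega)
        have h2 := hm1 (i0 - i1 + x) (by omega)
        rw [show j1 + (i0 - i1 + x) = j1 + (i0 - i1) + x by omega,
          show i1 + (i0 - i1 + x) = i0 + x by omega] at h2
        calc d (j1 + (i0 - i1) + x) = σ1 * d (i0 + x) := h2
          _ = σ1 * ((σ0 * σ0) * d (i0 + x)) := by rw [hsq0, one_mul]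
          _ = (σ0 * σ1) * (σ0 * d (i0 + x)) := by ring
          _ = (σ0 * σ1) * d (j0 + x) := by rw [h1]
      have h4 := hQ _ _ _ _ hs (by omega) (by omega) hM2
      omega
    · have hM2 : Mt d (σ0 * σ1) (i1 + ℓ0) j1 (min n (i0 + m0 - i1)) := by
        intro x hx
        have hx1 : x < n := lt_of_lt_of_le hx (min_le_left _ _)
        have hx2 : x < i0 + m0 - i1 := lt_of_lt_of_le hx (min_le_right _ _)
        have h1 := hP0 (i1 - i0 + x) (by omega)
        have h2 := hm1 x hx1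
        rw [show j0 + (i1 - i0 + x) = i1 + ℓ0 + x by omega,
          show i0 + (i1 - i0 + x) = i1 + x by omega] at h1
        calc d (j1 + x) = σ1 * d (i1 + x) := h2
          _ = σ1 * ((σ0 * σ0) * d (i1 + x)) := by rw [hsq0, one_mul]
          _ = (σ0 * σ1) * (σ0 * d (i1 + x)) := by ring
          _ = (σ0 * σ1) * d (i1 + ℓ0 + x) := by rw [h1]
      have h4 := hQ _ _ _ _ hs (by omega) (by omega) hM2
      rcases Nat.le_total n (i0 + m0 - i1) with h5 | h5
      · rw [min_eq_left h5] at h4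
        omega
      · rw [min_eq_right h5] at h4
        omega

end Pool.H389R2.LC
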