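import Mathlib
import Pool.Agent.H389R2.LC.Comb

set_option autoImplicit false

/-!
Complexity below `3n`; existence of units and of expansions.
-/

namespace Pool.H389R2.LC

/-- low complexity forces repetitions of exponent above 3/2, near the origin -/
theorem rep_of_pm (d : ℕ → ℤ) (B : ℝ) (hB : ∀ k, |(d k : ℝ)| ≤ B) (n K : ℕ) (hn : K + 10 ≤ n)
    (h : pm d n + 3 * K + 10 < 3 * n) :
    ∃ s ℓ m : ℕ, 0 < ℓ ∧ s + ℓ + m ≤ 10 * n ∧ ℓ + K ≤ 2 * m ∧
      ∃ σ : ℤ, (σ = 1 ∨ σ = -1) ∧ ∀ k, s ≤ k → k < s + m → d (k + ℓ) = σ * d k := by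
  by_contra hcon
  have := pm_lower d B hB n K hn (by
    intro i j m σ hσ hij hjm hMt
    by_contra h2
    apply hcon
    refine ⟨i, j - i, m, by omega, by omega, by omega, σ, hσ, ?_⟩
    intro k h3 h4
    have := hMt (k - i) (by omega)
    rw [show j + (k - i) = k + (j - i) by omega, show i + (k - i) = k by omega] at this
    exact this)
  omega

section base
variable {t : ℤ} {ε : ℝ} (hb : Base t ε)
include hb

/-- complexity below `3n` by an unbounded amount -/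
theorem cx_LC (α β : ℝ) (A0 B0 : ℤ) (c : ℕ) (hc : 0 < c)
    (hα : (c : ℝ) * α = A0 + B0 * ε)
    (d : ℕ → ℤ) (B : ℝ) (hB : ∀ k, |(d k : ℝ)| ≤ B)
    (hβ : β = ∑' k : ℕ, (d k : ℝ) * ε⁻¹ ^ k)
    (hcx : ∀ K : ℕ, ∃ n : ℕ, pm d n + K ≤ 3 * n) :
    ∀ η : ℝ, 0 < η → ∀ N : ℕ, ∃ q : ℕ, N ≤ q ∧ 0 < q ∧ L α β q < η := by
  apply rep_LC hb α β A0 B0 c hc hα d B hB hβ
  intro K
  obtain ⟨n, hn⟩ := hcx (3 * K + 31)
  obtain ⟨s, ℓ, m, h1, -, h3, h4⟩ := rep_of_pm d B hB n K (by omega) (by omega)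
  exact ⟨s, ℓ, m, h1, h3, h4⟩

/-- `liminf p(n)/n < 3` gives a power saving -/
theorem cx_rate (α β : ℝ) (A0 B0 : ℤ) (c : ℕ) (hc : 0 < c)
    (hα : (c : ℝ) * α = A0 + B0 * ε)
    (d : ℕ → ℤ) (B : ℝ) (hB : ∀ k, |(d k : ℝ)| ≤ B)
    (hβ : β = ∑' k : ℕ, (d k : ℝ) * ε⁻¹ ^ k) (γ : ℝ) (hγ : γ < 3)
    (hcx : ∀ K : ℕ, ∃ n : ℕ, K ≤ n ∧ (pm d n : ℝ) ≤ γ * n) :
    ∃ η : ℝ, 0 < η ∧ ∀ N : ℕ, ∃ q : ℕ, N ≤ q ∧ 0 < q ∧ (q : ℝ) ^ η * L α β q < 1 := by
  obtain ⟨M, hM⟩ := exists_nat_gt (1 / (3 - γ))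
  -- wlog a large integer M with 3 - γ > 1/M
  have h3γ : 0 < 3 - γ := by linarith
  have hM0 : (0 : ℝ) < M := lt_trans (by positivity) hM
  have hM1 : 1 < (3 - γ) * M := by
    rw [div_lt_iff₀ h3γ] at hM
    linarith
  have hMn : 0 < M := by exact_mod_cast hM0
  apply rep_rate hb α β A0 B0 c hc hα d B hB hβ (1 / (100 * M)) (by positivity)
  intro K
  -- n large, K' = n / (4 M)
  obtain ⟨n, hKn, hn⟩ := hcx (8 * M * (2 * K + 20))
  have hMK : 2 * K + 20 ≤ n / (8 * M) := by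
    rw [Nat.le_div_iff_mul_le (by positivity)]
    calc (2 * K + 20) * (8 * M) = 8 * M * (2 * K + 20) := by ring
      _ ≤ n := hKn
  set K' := n / (8 * M) with hK'
  have hK'n : 8 * M * K' ≤ n := Nat.mul_div_le n (8 * M)
  have hK'8 : 8 * K' ≤ n := by
    have : 8 * K' ≤ 8 * M * K' := by nlinarith
    omega
  have hpm : pm d n + 3 * K' + 10 < 3 * n := by
    have h1 : (pm d n : ℝ) + 3 * K' + 10 < 3 * n := by
      have h2 : (8 : ℝ) * M * K' ≤ n := by exact_mod_cast hK'n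
      have h3 : (2 : ℝ) * K + 20 ≤ K' := by exact_mod_cast hMK
      have h4 : (0 : ℝ) ≤ K := Nat.cast_nonneg K
      have h5 : (0 : ℝ) < n := by nlinarith
      -- (3-γ) n > n / M ≥ 8 K'
      have h6 : (n : ℝ) < (3 - γ) * n * M := by nlinarith
      have h7 : 8 * (K' : ℝ) < (3 - γ) * n := by
        by_contra hcon
        push Not at hcon
        have : (3 - γ) * n * M ≤ 8 * K' * M := mul_le_mul_of_nonneg_right hcon hM0.le
        linarith
      linarith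
    exact_mod_cast h1
  obtain ⟨s, ℓ, m, h1, h2, h3, h4⟩ := rep_of_pm d B hB n K' (by omega) hpm
  refine ⟨s, ℓ, m, h1, by omega, ?_, h4⟩
  -- ℓ + (s+m)/(100 M) ≤ 2 m
  have h5 : (ℓ : ℝ) + K' ≤ 2 * m := by exact_mod_cast h3
  have h6 : (s : ℝ) + m ≤ 10 * n := by
    have : s + m ≤ 10 * n := by omega
    exact_mod_cast this
  have h7 : n < 8 * M * (K' + 1) := by
    have := Nat.lt_mul_div_succ n (by positivity : 0 < 8 * M)
    exact this
  have h8 : (n : ℝ) < 8 * M * (K' + 1) := by exact_mod_cast h7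
  have h9 : (1 : ℝ) ≤ K' / 20 := by
    have : (20 : ℝ) ≤ K' := by
      have : 20 ≤ K' := by omega
      exact_mod_cast this
    linarith
  have h10 : 1 / (100 * (M : ℝ)) * (s + m) ≤ K' := by
    rw [div_mul_eq_mul_div, one_mul, div_le_iff₀ (by positivity)]
    have h11 : (0 : ℝ) ≤ K' := Nat.cast_nonneg _
    nlinarith
  linarith

end base

/-- every real quadratic irrational is of the form `a + b ε` -/
theorem quad_unit (α : ℝ) (hirr : Irrational α) (A B C : ℤ) (hA : A ≠ 0)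
    (h : (A : ℝ) * α ^ 2 + B * α + C = 0) :
    ∃ (t : ℤ) (ε : ℝ), 3 ≤ t ∧ 1 < ε ∧ ε ^ 2 - t * ε + 1 = 0 ∧ ∃ a b : ℚ, α = a + b * ε := by
  set D : ℤ := B ^ 2 - 4 * A * C with hD
  set s : ℝ := 2 * A * α + B with hs
  have hAr : (A : ℝ) ≠ 0 := by exact_mod_cast hA
  have hsD : s ^ 2 = D := by
    rw [hs, hD]
    push_cast
    linear_combination (4 * (A : ℝ)) * h
  have hsirr : Irrational s := by
    rw [hs]
    have h1 : Irrational ((2 * A : ℤ) * α) := by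
      apply Irrational.intCast_mul hirr
      omega
    have h2 := h1.add_intCast B
    push_cast at h2
    exact h2
  have hs0 : s ≠ 0 := hsirr.ne_zero
  have hDpos : 0 < D := by
    have : (0 : ℝ) < D := by rw [← hsD]; positivity
    exact_mod_cast this
  have hDsq : ¬ IsSquare D := by
    rintro ⟨r, hr⟩
    have h1 : s ^ 2 = (r : ℝ) ^ 2 := by rw [hsD, hr]; push_cast; ring
    rcases sq_eq_sq_iff_eq_or_eq_neg.mp h1 with h2 | h2
    · exact hsirr ⟨r, by rw [h2]; simp⟩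
    · exact hsirr ⟨-r, by rw [h2]; simp⟩
  obtain ⟨x, y, hxy, hy⟩ := Pell.exists_of_not_isSquare hDpos hDsq
  have hyr : (0 : ℝ) < |(y : ℝ)| := abs_pos.mpr (by exact_mod_cast hy)
  have hsa : 0 < |s| := abs_pos.mpr hs0
  have hx2 : 2 ≤ |x| := by
    have hy1 : 1 ≤ y ^ 2 := by
      have : 0 < y ^ 2 := by positivity
      omega
    have hD2 : 2 ≤ D := by
      by_contra hcon
      push Not at hcon
      have : D = 1 := by omega
      exact hDsq ⟨1, by rw [this]; ring⟩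
    by_contra hcon
    push Not at hcon
    have h1 : x ^ 2 ≤ 1 := by
      rw [← sq_abs]
      have := abs_nonneg x
      nlinarith
    nlinarith
  have hx2r : (2 : ℝ) ≤ |(x : ℝ)| := by exact_mod_cast hx2
  refine ⟨2 * |x|, |(x : ℝ)| + |(y : ℝ)| * |s|, by omega, ?_, ?_, ?_⟩
  · have : 0 < |(y : ℝ)| * |s| := mul_pos hyr hsa
    linarith
  · push_cast
    have h1 : |(y : ℝ)| ^ 2 * |s| ^ 2 = |(x : ℝ)| ^ 2 - 1 := by
      rw [sq_abs, sq_abs, sq_abs, hsD]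
      have : (x : ℝ) ^ 2 - D * y ^ 2 = 1 := by exact_mod_cast hxy
      linarith
    linear_combination h1
  · rcases lt_or_gt_of_ne hs0 with hneg | hpos
    · -- s < 0 : s = -(ε - |x|)/|y|
      refine ⟨((|x| : ℤ) / |y| - B) / (2 * A), -1 / (2 * A * |y|), ?_⟩
      push_cast
      rw [abs_of_neg hneg]
      have h2 : α = (s - B) / (2 * A) := by
        rw [hs]; field_simp; ring
      rw [h2]
      field_simp
      ring
    · refine ⟨(-((|x| : ℤ) / |y|) - B) / (2 * A), 1 / (2 * A * |y|), ?_⟩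
      push_cast
      rw [abs_of_pos hpos]
      have h2 : α = (s - B) / (2 * A) := by
        rw [hs]; field_simp; ring
      rw [h2]
      field_simp
      ring

/-- remainders of the greedy expansion -/
noncomputable def rem (ε β : ℝ) : ℕ → ℝ
  | 0 => Int.fract β
  | (n + 1) => Int.fract (ε * rem ε β n)

/-- digits of the greedy expansion -/
noncomputable def dig (ε β : ℝ) : ℕ → ℤ
  | 0 => ⌊β⌋
  | (n + 1) => ⌊ε * rem ε β n⌋

theorem rem_mem (ε β : ℝ) (n : ℕ) : 0 ≤ rem ε β n ∧ rem ε β n < 1 := by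
  cases n with
  | zero => exact ⟨Int.fract_nonneg _, Int.fract_lt_one _⟩
  | succ n => exact ⟨Int.fract_nonneg _, Int.fract_lt_one _⟩

/-- every real number has an expansion with bounded digits -/
theorem expansion (ε : ℝ) (h1 : 1 < ε) (β : ℝ) :
    ∃ d : ℕ → ℤ, (∃ B : ℤ, ∀ k, |d k| ≤ B) ∧ β = ∑' k : ℕ, (d k : ℝ) * ε⁻¹ ^ k := by
  have hε : 0 < ε := by linarith
  have hr0 : 0 < ε⁻¹ := inv_pos.mpr hε
  have hr1 : ε⁻¹ < 1 := inv_lt_one_of_one_lt₀ h1
  have hm : ε * ε⁻¹ = 1 := mul_inv_cancel₀ hε.ne'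
  have hbd : ∀ k, |dig ε β k| ≤ |⌊β⌋| + ⌈ε⌉ := by
    intro k
    cases k with
    | zero =>
      show |⌊β⌋| ≤ _
      have : 0 ≤ ⌈ε⌉ := by
        have := Int.ceil_pos.mpr hε
        omega
      omega
    | succ k =>
      show |⌊ε * rem ε β k⌋| ≤ _
      obtain ⟨h2, h3⟩ := rem_mem ε β k
      have h4 : 0 ≤ ⌊ε * rem ε β k⌋ := Int.floor_nonneg.mpr (by positivity)
      rw [abs_of_nonneg h4]
      have h5 : ⌊ε * rem ε β k⌋ ≤ ⌈ε⌉ := by
        have h6 : ε * rem ε β k ≤ ε := by nlinarith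
        have h7 : ((⌊ε * rem ε β k⌋ : ℤ) : ℝ) ≤ (⌈ε⌉ : ℤ) := by
          calc ((⌊ε * rem ε β k⌋ : ℤ) : ℝ) ≤ ε * rem ε β k := Int.floor_le _
            _ ≤ ε := h6
            _ ≤ _ := Int.le_ceil _
        exact_mod_cast h7
      have := abs_nonneg ⌊β⌋
      omega
  refine ⟨dig ε β, ⟨_, hbd⟩, ?_⟩
  have hpart : ∀ n, ∑ k ∈ Finset.range (n + 1), (dig ε β k : ℝ) * ε⁻¹ ^ k
      = β - rem ε β n * ε⁻¹ ^ n := by
    intro n
    induction n with
    | zero =>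
      simp [dig, rem]
    | succ n ih =>
      rw [Finset.sum_range_succ, ih]
      show β - rem ε β n * ε⁻¹ ^ n + (⌊ε * rem ε β n⌋ : ℝ) * ε⁻¹ ^ (n + 1)
        = β - Int.fract (ε * rem ε β n) * ε⁻¹ ^ (n + 1)
      have h2 : (⌊ε * rem ε β n⌋ : ℝ) + Int.fract (ε * rem ε β n) = ε * rem ε β n :=
        Int.floor_add_fract _
      have h3 : ε⁻¹ ^ n = ε * ε⁻¹ ^ (n + 1) := by
        rw [pow_succ]
        calc ε⁻¹ ^ n = (ε * ε⁻¹) * ε⁻¹ ^ n := by rw [hm, one_mul]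
          _ = _ := by ring
      rw [h3]
      linear_combination (ε⁻¹ ^ (n + 1)) * h2
  have hsum : Summable (fun k : ℕ => (dig ε β k : ℝ) * ε⁻¹ ^ k) := by
    refine Summable.of_norm_bounded (g := fun i : ℕ => ((|⌊β⌋| + ⌈ε⌉ : ℤ) : ℝ) * ε⁻¹ ^ i) ?_ ?_
    · exact (summable_geometric_of_lt_one hr0.le hr1).mul_left _
    · intro i
      rw [Real.norm_eq_abs, abs_mul, abs_of_pos (pow_pos hr0 i)]
      apply mul_le_mul_of_nonneg_right _ (pow_pos hr0 i).le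
      have := hbd i
      exact_mod_cast this
  have h2 := hsum.hasSum.tendsto_sum_nat
  have h3 := h2.comp (Filter.tendsto_add_atTop_nat 1)
  have h4 : Filter.Tendsto (fun n : ℕ => β - rem ε β n * ε⁻¹ ^ n) Filter.atTop (nhds (β - 0)) := by
    apply Filter.Tendsto.sub tendsto_const_nhds
    have h5 : Filter.Tendsto (fun n : ℕ => ε⁻¹ ^ n) Filter.atTop (nhds 0) :=
      tendsto_pow_atTop_nhds_zero_of_lt_one hr0.le hr1
    refine squeeze_zero (fun n => mul_nonneg (rem_mem ε β n).1 (pow_pos hr0 n).le) (fun n => ?_) h5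
    have := (rem_mem ε β n).2
    have h6 := pow_pos hr0 n
    nlinarith
  rw [sub_zero] at h4
  refine tendsto_nhds_unique h4 ?_
  refine h3.congr (fun n => ?_)
  exact hpart n

end Pool.H389R2.LC
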