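import Mathlib
import Pool.Agent.H389R2.LC.Rep

set_option autoImplicit false

/-!
Palindromes and antipalindromes.
-/

namespace Pool.H389R2.LC

theorem gg_smul (ε : ℝ) (f : ℤ → ℤ) (σ : ℤ) (j : ℤ) :
    gg ε (fun k => σ * f k) j = σ * gg ε f j := by
  have h1 : FF ε (fun k => σ * f k) j = σ * FF ε f j := by
    unfold FF
    rw [← tsum_mul_left]
    apply tsum_congr
    intro i
    push_cast; ring
  have h2 : PP ε (fun k => σ * f k) j = σ * PP ε f j := by
    unfold PP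
    rw [← tsum_mul_left]
    apply tsum_congr
    intro i
    push_cast; ring
  unfold gg
  rw [h1, h2]
  ring

section base
variable {t : ℤ} {ε : ℝ} (hb : Base t ε)
include hb

/-- a (anti)palindromic block gives a good multiplier -/
theorem pal_block (α β : ℝ) (A0 B0 : ℤ) (c : ℕ) (hc : 0 < c) (hα : (c : ℝ) * α = A0 + B0 * ε)
    (d : ℕ → ℤ) (B : ℝ) (hB : ∀ k, |(d k : ℝ)| ≤ B)
    (hβ : β = ∑' k : ℕ, (d k : ℝ) * ε⁻¹ ^ k) :
    ∃ C : ℝ, 0 < C ∧ ∀ s n : ℕ, 6 ≤ n →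
      (∃ σ : ℤ, (σ = 1 ∨ σ = -1) ∧ ∀ i, i < n → d (s + i) = σ * d (s + n - 1 - i)) →
      ∃ q : ℕ, 0 < q ∧ (q : ℝ) ≤ C * ε ^ (s + n) ∧ (L α β q) ^ 2 ≤ C * ε⁻¹ ^ n := by
  have hε := hb.pos
  have hr0 := hb.rpos
  have hr1 := hb.rlt
  have hm1 := hb.mul
  have h2ε := hb.two_lt
  have hB0 : 0 ≤ B := le_trans (abs_nonneg _) (hB 0)
  have hcr : (0 : ℝ) < c := by exact_mod_cast hc
  have h1r : 0 < 1 - ε⁻¹ := by linarith
  have ht3 : (3 : ℝ) ≤ t := by exact_mod_cast hb.ht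
  set S : ℝ := t + 2 with hS
  have hS0 : 0 < S := by linarith
  set C1 : ℝ := c ^ 2 * |(B0 : ℝ)| * ε * S ^ 2 * (4 * B * (1 - ε⁻¹)⁻¹ + S * |β|) with hC1
  have hC1nn : 0 ≤ C1 := by positivity
  refine ⟨C1 ^ 2 * ε ^ 6 + c * S, by positivity, ?_⟩
  intro s n hn ⟨σ, hσ, hpal⟩
  -- radius
  set ρ : ℕ := n / 2 - 2 with hρ
  set E : ℝ := 4 * B * (1 - ε⁻¹)⁻¹ * ε⁻¹ ^ ρ with hE
  have hE0 : 0 ≤ E := by positivity
  -- reflected sequence
  set w : ℤ := 2 * s + n - 1 with hw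
  have hBe := ext_bdd d B hB
  have hσabs : |(σ : ℝ)| = 1 := by
    rcases hσ with h | h <;> rw [h] <;> simp
  have hloc : ∀ k : ℤ, (s : ℤ) ≤ k → k < s + n → ext d k = σ * ext d (w - k) := by
    intro k h1 h2
    obtain ⟨m, rfl⟩ : ∃ m : ℕ, ((s + m : ℕ) : ℤ) = k := ⟨(k - s).toNat, by omega⟩
    have hm : m < n := by omega
    have h3 : w - ((s + m : ℕ) : ℤ) = ((s + n - 1 - m : ℕ) : ℤ) := by omega
    rw [h3, ext_nat, ext_nat]
    exact hpal m hm
  have hclose : ∀ k : ℤ, (s : ℤ) + ρ ≤ k → k + ρ ≤ s + n →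
      |gg ε (ext d) k - σ * gg ε (ext d) (w - k)| ≤ E := by
    intro k h1 h2
    have h3 : gg ε (fun i => σ * ext d (w - i)) k = σ * gg ε (ext d) (w - k) := by
      rw [gg_smul ε (fun i => ext d (w - i)) σ k, gg_reflect hb (ext d) B hBe w k]
    rw [← h3]
    apply gg_close hb (ext d) _ B hBe
    · intro i
      push_cast
      rw [abs_mul, hσabs, one_mul]
      exact hBe _
    · intro i h4 h5
      exact hloc i (by omega) (by omega)
  -- common conclusion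
  have finish : ∀ (j : ℕ) (a b : ℤ) (z : ℤ), ρ ≤ j → j + 1 ≤ s + n →
      a * U t j + b * U t (j + 1) ≠ 0 → |(a : ℝ)| + |(b : ℝ)| ≤ S →
      |a * gg ε (ext d) j + b * gg ε (ext d) (j + 1) - z| ≤ E →
      ∃ q : ℕ, 0 < q ∧ (q : ℝ) ≤ (C1 ^ 2 * ε ^ 6 + c * S) * ε ^ (s + n) ∧
        (L α β q) ^ 2 ≤ (C1 ^ 2 * ε ^ 6 + c * S) * ε⁻¹ ^ n := by
    intro j a b z hj1 hj2 hne hab hz
    obtain ⟨q, hq0, hqs, hqL⟩ := key hb α β A0 B0 c hc hα d B hB hβ j a b hne S hab E z hz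
    refine ⟨q, hq0, ?_, ?_⟩
    · calc (q : ℝ) ≤ c * S * ε ^ (j + 1) := hqs
        _ ≤ c * S * ε ^ (s + n) :=
          mul_le_mul_of_nonneg_left (pow_le_pow_right₀ hb.h1.le hj2) (by positivity)
        _ ≤ (C1 ^ 2 * ε ^ 6 + c * S) * ε ^ (s + n) := by
          apply mul_le_mul_of_nonneg_right _ (by positivity)
          have : 0 ≤ C1 ^ 2 * ε ^ 6 := by positivity
          linarith
    · have hrj : ε⁻¹ ^ j ≤ ε⁻¹ ^ ρ := pow_le_pow_of_le_one hr0.le hr1.le hj1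
      have hL1 : L α β q ≤ C1 * ε⁻¹ ^ ρ := by
        calc L α β q ≤ c ^ 2 * |(B0 : ℝ)| * ε * S ^ 2 * (E + S * ε⁻¹ ^ j * |β|) := hqL
          _ ≤ c ^ 2 * |(B0 : ℝ)| * ε * S ^ 2 * (E + S * ε⁻¹ ^ ρ * |β|) := by
              apply mul_le_mul_of_nonneg_left _ (by positivity)
              have : S * ε⁻¹ ^ j * |β| ≤ S * ε⁻¹ ^ ρ * |β| := by
                apply mul_le_mul_of_nonneg_right _ (abs_nonneg _)
                exact mul_le_mul_of_nonneg_left hrj hS0.le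
              linarith
          _ = C1 * ε⁻¹ ^ ρ := by rw [hE, hC1]; ring
      have hL0 := L_nonneg α β q
      have hr2 : (ε⁻¹ ^ ρ) ^ 2 ≤ ε ^ 6 * ε⁻¹ ^ n := by
        have h1 : ε⁻¹ ^ (2 * ρ + 6) ≤ ε⁻¹ ^ n :=
          pow_le_pow_of_le_one hr0.le hr1.le (by omega)
        have h2 : ε ^ 6 * ε⁻¹ ^ (2 * ρ + 6) = (ε⁻¹ ^ ρ) ^ 2 := by
          calc ε ^ 6 * ε⁻¹ ^ (2 * ρ + 6) = (ε * ε⁻¹) ^ 6 * (ε⁻¹ ^ ρ) ^ 2 := by ring
            _ = _ := by rw [hm1, one_pow, one_mul]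
        rw [← h2]
        exact mul_le_mul_of_nonneg_left h1 (by positivity)
      calc (L α β q) ^ 2 ≤ (C1 * ε⁻¹ ^ ρ) ^ 2 := pow_le_pow_left₀ hL0 hL1 2
        _ = C1 ^ 2 * (ε⁻¹ ^ ρ) ^ 2 := by ring
        _ ≤ C1 ^ 2 * (ε ^ 6 * ε⁻¹ ^ n) := mul_le_mul_of_nonneg_left hr2 (by positivity)
        _ = C1 ^ 2 * ε ^ 6 * ε⁻¹ ^ n := by ring
        _ ≤ (C1 ^ 2 * ε ^ 6 + c * S) * ε⁻¹ ^ n := by
            apply mul_le_mul_of_nonneg_right _ (by positivity)
            have : 0 ≤ (c : ℝ) * S := by positivity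
            linarith
  have hUpos : ∀ k : ℕ, (0 : ℤ) < U t (k + 1) := by
    intro k
    have h1 := hb.U_lower k
    have h2 : 0 < ε ^ k := pow_pos hε k
    have : (0 : ℝ) < U t (k + 1) := by linarith
    exact_mod_cast this
  have hUmono : ∀ k : ℕ, 2 * U t k < U t (k + 1) := by
    intro k
    have h1 := hb.U_diff k
    have h2 : 0 < ε⁻¹ ^ k := pow_pos hr0 k
    have h3 : (0 : ℝ) ≤ U t k := by exact_mod_cast hb.U_nonneg k
    have : 2 * (U t k : ℝ) < U t (k + 1) := by nlinarith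
    exact_mod_cast this
  rcases Nat.even_or_odd' n with ⟨m, hm | hm⟩
  · -- even length: centre j + 1/2, j = s + m - 1
    set j : ℕ := s + m - 1 with hj
    have hwj : w - j = j + 1 := by omega
    have hcl := hclose j (by omega) (by omega)
    rw [hwj] at hcl
    rcases hσ with rfl | rfl
    · apply finish j 1 (-1) 0 (by omega) (by omega)
      · have h1 := hUmono j
        have h2 := hb.U_nonneg j
        intro h3
        omega
      · push_cast
        rw [abs_neg, abs_one]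
        linarith
      · push_cast at hcl ⊢
        rw [one_mul, sub_zero]
        rw [one_mul] at hcl
        convert hcl using 2
        ring
    · apply finish j 1 1 0 (by omega) (by omega)
      · have h1 := hUpos j
        have h2 := hb.U_nonneg j
        intro h3
        omega
      · push_cast
        rw [abs_one]
        linarith
      · push_cast at hcl ⊢
        rw [one_mul, one_mul, sub_zero]
        convert hcl using 2
        ring
  · -- odd length: centre j = s + m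
    set j : ℕ := s + m with hj
    have hwj : w - j = j := by omega
    rcases hσ with rfl | rfl
    · have hcl := hclose (j + 1) (by omega) (by omega)
      have hwj' : w - ((j : ℤ) + 1) = j - 1 := by omega
      rw [hwj'] at hcl
      have hrec := gg_rec hb (ext d) B hBe ((j : ℤ) - 1)
      rw [show (j : ℤ) - 1 + 2 = j + 1 by ring, show (j : ℤ) - 1 + 1 = j by ring] at hrec
      apply finish j (-t) 2 (-ext d j) (by omega) (by omega)
      · have h1 : (0 : ℝ) < -t * U t j + 2 * U t (j + 1) := by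
          have e1 := hb.U_diff j
          have e2 := hb.add
          have h2 : 0 < ε⁻¹ ^ j := pow_pos hr0 j
          have h3 : (0 : ℝ) ≤ U t j := by exact_mod_cast hb.U_nonneg j
          have h4 : ε⁻¹ * (U t j : ℝ) ≤ ε * U t j :=
            mul_le_mul_of_nonneg_right (by linarith) h3
          rw [← e2]
          nlinarith
        intro h5
        have : ((-t * U t j + 2 * U t (j + 1) : ℤ) : ℝ) = 0 := by rw [h5]; simp
        push_cast at this
        linarith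
      · push_cast
        rw [abs_neg, abs_of_pos (by linarith : (0 : ℝ) < t), abs_of_pos (by norm_num : (0 : ℝ) < 2)]
      · push_cast at hcl ⊢
        rw [one_mul] at hcl
        convert hcl using 2
        linear_combination hrec
    · have hcl := hclose j (by omega) (by omega)
      rw [hwj] at hcl
      apply finish j 1 0 0 (by omega) (by omega)
      · obtain ⟨i, hi⟩ : ∃ i, j = i + 1 := ⟨j - 1, by omega⟩
        have h1 := hUpos i
        rw [← hi] at h1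
        intro h3
        omega
      · push_cast
        rw [abs_one, abs_zero]
        linarith
      · push_cast at hcl ⊢
        rw [one_mul, zero_mul, add_zero, sub_zero]
        have e1 : gg ε (ext d) j - -1 * gg ε (ext d) j = 2 * gg ε (ext d) j := by ring
        rw [e1, abs_mul, abs_of_pos (by norm_num : (0 : ℝ) < 2)] at hcl
        have := abs_nonneg (gg ε (ext d) j)
        linarith

/-- arbitrarily long palindromes or antipalindromes give Littlewood's conjecture -/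
theorem pal_LC (α β : ℝ) (A0 B0 : ℤ) (c : ℕ) (hc : 0 < c) (hα : (c : ℝ) * α = A0 + B0 * ε)
    (d : ℕ → ℤ) (B : ℝ) (hB : ∀ k, |(d k : ℝ)| ≤ B)
    (hβ : β = ∑' k : ℕ, (d k : ℝ) * ε⁻¹ ^ k)
    (hpal : ∀ K : ℕ, ∃ s n : ℕ, K ≤ n ∧
      ∃ σ : ℤ, (σ = 1 ∨ σ = -1) ∧ ∀ i, i < n → d (s + i) = σ * d (s + n - 1 - i)) :
    ∀ η : ℝ, 0 < η → ∀ N : ℕ, ∃ q : ℕ, N ≤ q ∧ 0 < q ∧ L α β q < η := by
  apply liminf_of_inf
  intro η hη
  obtain ⟨C, hC0, hC⟩ := pal_block hb α β A0 B0 c hc hα d B hB hβ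
  obtain ⟨K, hK⟩ := exists_pow_small hb.rpos hb.rlt C (η ^ 2) (by positivity)
  obtain ⟨s, n, hn, h⟩ := hpal (K + 6)
  obtain ⟨q, hq0, -, hqL⟩ := hC s n (by omega) h
  refine ⟨q, hq0, ?_⟩
  have h3 : (L α β q) ^ 2 < η ^ 2 := by
    calc (L α β q) ^ 2 ≤ C * ε⁻¹ ^ n := hqL
      _ ≤ C * ε⁻¹ ^ K := mul_le_mul_of_nonneg_left
          (pow_le_pow_of_le_one hb.rpos.le hb.rlt.le (by omega)) hC0.le
      _ < η ^ 2 := hK
  exact lt_of_pow_lt_pow_left₀ 2 hη.le h3

/-- palindromes of length proportional to their position give a power saving -/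
theorem pal_rate (α β : ℝ) (A0 B0 : ℤ) (c : ℕ) (hc : 0 < c) (hα : (c : ℝ) * α = A0 + B0 * ε)
    (d : ℕ → ℤ) (B : ℝ) (hB : ∀ k, |(d k : ℝ)| ≤ B)
    (hβ : β = ∑' k : ℕ, (d k : ℝ) * ε⁻¹ ^ k) (κ : ℝ) (hκ : 0 < κ)
    (hpal : ∀ K : ℕ, ∃ s n : ℕ, K ≤ n ∧ κ * s ≤ n ∧
      ∃ σ : ℤ, (σ = 1 ∨ σ = -1) ∧ ∀ i, i < n → d (s + i) = σ * d (s + n - 1 - i)) :
    ∃ η : ℝ, 0 < η ∧ ∀ N : ℕ, ∃ q : ℕ, N ≤ q ∧ 0 < q ∧ (q : ℝ) ^ η * L α β q < 1 := by
  obtain ⟨C, hC0, hC⟩ := pal_block hb α β A0 B0 c hc hα d B hB hβ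
  have hε := hb.pos
  have hr0 := hb.rpos
  -- q ≤ C ε^(s+n) ≤ C ε^(n (1+1/κ)),  L^2 ≤ C ε^(-n)
  refine ⟨1 / (4 * (1 + 1 / κ)), by positivity, ?_⟩
  set η : ℝ := 1 / (4 * (1 + 1 / κ)) with hη
  have hη0 : 0 < η := by positivity
  apply exists_large
  · intro q _ h0
    rw [h0, mul_zero]; exact one_pos
  · intro θ hθ
    set C' : ℝ := max C 1 with hC'
    have hC'1 : 1 ≤ C' := le_max_right _ _
    have hC'0 : 0 < C' := by linarith
    have hCC' : C ≤ C' := le_max_left _ _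
    have hx1 : ε⁻¹ ^ (1 / 2 : ℝ) < 1 := Real.rpow_lt_one hr0.le hb.rlt (by positivity)
    have hx0 : 0 < ε⁻¹ ^ (1 / 2 : ℝ) := Real.rpow_pos_of_pos hr0 _
    obtain ⟨K0, hK0⟩ := exists_pow_small hx0 hx1 (C' ^ (1 + 2 * η)) (min (θ ^ 2) 1) (by positivity)
    obtain ⟨s, n, hKn, hsn, hp⟩ := hpal (K0 + 6)
    obtain ⟨q, hq0, hqs, hqL⟩ := hC s n (by omega) hp
    have hq0r : (0 : ℝ) < q := by exact_mod_cast hq0
    have hL0 := L_nonneg α β q
    have hnr : (0 : ℝ) ≤ n := Nat.cast_nonneg n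
    have hs1 : (s : ℝ) ≤ n / κ := by
      rw [le_div_iff₀ hκ]; linarith
    have hqs' : (q : ℝ) ≤ C' * ε ^ ((1 + 1 / κ) * n) := by
      calc (q : ℝ) ≤ C * ε ^ (s + n) := hqs
        _ ≤ C' * ε ^ (s + n) := mul_le_mul_of_nonneg_right hCC' (pow_pos hε _).le
        _ ≤ C' * ε ^ ((1 + 1 / κ) * n) := by
            apply mul_le_mul_of_nonneg_left _ hC'0.le
            rw [← Real.rpow_natCast]
            apply Real.rpow_le_rpow_of_exponent_le hb.h1.le
            push_cast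
            have : (1 + 1 / κ) * (n : ℝ) = n + n / κ := by ring
            linarith
    have hL2 : (L α β q) ^ 2 ≤ C' * ε⁻¹ ^ (n : ℝ) := by
      calc (L α β q) ^ 2 ≤ C * ε⁻¹ ^ n := hqL
        _ ≤ C' * ε⁻¹ ^ n := mul_le_mul_of_nonneg_right hCC' (pow_pos hr0 _).le
        _ = C' * ε⁻¹ ^ (n : ℝ) := by rw [Real.rpow_natCast]
    have hdecay : C' ^ (1 + 2 * η) * ε⁻¹ ^ ((n : ℝ) / 2) < min (θ ^ 2) 1 := by
      have h5 : ε⁻¹ ^ ((n : ℝ) / 2) ≤ (ε⁻¹ ^ (1 / 2 : ℝ)) ^ K0 := by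
        rw [← Real.rpow_natCast, ← Real.rpow_mul hr0.le]
        apply Real.rpow_le_rpow_of_exponent_ge hr0 hb.rlt.le
        have : ((K0 + 6 : ℕ) : ℝ) ≤ n := by exact_mod_cast hKn
        push_cast at this
        linarith
      calc C' ^ (1 + 2 * η) * ε⁻¹ ^ ((n : ℝ) / 2)
          ≤ C' ^ (1 + 2 * η) * (ε⁻¹ ^ (1 / 2 : ℝ)) ^ K0 :=
            mul_le_mul_of_nonneg_left h5 (Real.rpow_pos_of_pos hC'0 _).le
        _ < _ := hK0
    refine ⟨q, hq0, ?_, ?_⟩
    · have h6 : (L α β q) ^ 2 < θ ^ 2 := by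
        calc (L α β q) ^ 2 ≤ C' * ε⁻¹ ^ (n : ℝ) := hL2
          _ ≤ C' ^ (1 + 2 * η) * ε⁻¹ ^ ((n : ℝ) / 2) := by
              apply mul_le_mul _ _ (Real.rpow_pos_of_pos hr0 _).le
                (Real.rpow_pos_of_pos hC'0 _).le
              · calc C' = C' ^ (1 : ℝ) := (Real.rpow_one _).symm
                  _ ≤ C' ^ (1 + 2 * η) :=
                    Real.rpow_le_rpow_of_exponent_le hC'1 (by linarith)
              · apply Real.rpow_le_rpow_of_exponent_ge hr0 hb.rlt.le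
                linarith
          _ < min (θ ^ 2) 1 := hdecay
          _ ≤ θ ^ 2 := min_le_left _ _
      exact lt_of_pow_lt_pow_left₀ 2 hθ.le h6
    · have h7 : ((q : ℝ) ^ η * L α β q) ^ 2 < 1 ^ 2 := by
        rw [mul_pow, one_pow]
        have h8 : ((q : ℝ) ^ η) ^ 2 ≤ C' ^ (2 * η) * ε ^ ((n : ℝ) / 2) := by
          have h9 : ((q : ℝ) ^ η) ^ 2 = (q : ℝ) ^ (2 * η) := by
            rw [← Real.rpow_natCast, ← Real.rpow_mul hq0r.le]
            congr 1
            push_cast; ring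
          rw [h9]
          calc (q : ℝ) ^ (2 * η) ≤ (C' * ε ^ ((1 + 1 / κ) * n)) ^ (2 * η) :=
                Real.rpow_le_rpow hq0r.le hqs' (by positivity)
            _ = C' ^ (2 * η) * (ε ^ ((1 + 1 / κ) * n)) ^ (2 * η) :=
                Real.mul_rpow hC'0.le (Real.rpow_pos_of_pos hε _).le
            _ = C' ^ (2 * η) * ε ^ ((n : ℝ) / 2) := by
                rw [← Real.rpow_mul hε.le]
                congr 2
                rw [hη]
                have : (1 + 1 / κ) ≠ 0 := by positivity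
                field_simp
                ring
        calc ((q : ℝ) ^ η) ^ 2 * (L α β q) ^ 2
            ≤ (C' ^ (2 * η) * ε ^ ((n : ℝ) / 2)) * (C' * ε⁻¹ ^ (n : ℝ)) :=
              mul_le_mul h8 hL2 (by positivity) (mul_pos (Real.rpow_pos_of_pos hC'0 _)
                (Real.rpow_pos_of_pos hε _)).le
          _ = C' ^ (1 + 2 * η) * ε⁻¹ ^ ((n : ℝ) / 2) := by
              rw [Real.rpow_add hC'0, Real.rpow_one, Real.inv_rpow hε.le, Real.inv_rpow hε.le,
                ← Real.rpow_neg hε.le, ← Real.rpow_neg hε.le]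
              have : ε ^ ((n : ℝ) / 2) * ε ^ (-(n : ℝ)) = ε ^ (-((n : ℝ) / 2)) := by
                rw [← Real.rpow_add hε]; congr 1; ring
              calc C' ^ (2 * η) * ε ^ ((n : ℝ) / 2) * (C' * ε ^ (-(n : ℝ)))
                  = C' * C' ^ (2 * η) * (ε ^ ((n : ℝ) / 2) * ε ^ (-(n : ℝ))) := by ring
                _ = C' * C' ^ (2 * η) * ε ^ (-((n : ℝ) / 2)) := by rw [this]
          _ < min (θ ^ 2) 1 := hdecay
          _ ≤ 1 := min_le_right _ _
      exact lt_of_pow_lt_pow_left₀ 2 zero_le_one h7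

end base

end Pool.H389R2.LC
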